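import Pool.Agent.Work.MP_a69bcc_pr.Gen

set_option autoImplicit false

namespace Pool.Agent.Work.MPa69bcc

open Finset

/-- the gap constant -/
def C0 : ℝ := 600000

/-- base -/
def BB : ℝ := 12800000000

theorem BB_pow_ge (m : ℕ) (hm : 1 ≤ m) : (m : ℝ) * BB ≤ BB ^ m := by
  obtain ⟨k, rfl⟩ : ∃ k, m = k + 1 := ⟨m - 1, by omega⟩
  rw [pow_succ]
  have h1 : ((k + 1 : ℕ) : ℝ) ≤ BB ^ k := by
    have h2 : ((k + 1 : ℕ) : ℝ) ≤ 2 ^ k := by
      have : k + 1 ≤ 2 ^ k := Nat.lt_two_pow_self
      exact_mod_cast this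
    have h3 : (2:ℝ) ^ k ≤ BB ^ k := by
      apply pow_le_pow_left₀ (by norm_num)
      unfold BB; norm_num
    linarith
  have : 0 < BB := by unfold BB; norm_num
  gcongr

theorem log_close {a b δ D : ℝ} (ha : 0 < a) (hb : 0 < b) (hab : |a - b| ≤ δ) (hD : 0 < D)
    (hmax : D ≤ max a b) (hδ : δ ≤ D / 2) : |Real.log a - Real.log b| ≤ 2 * δ / D := by
  have h1 := abs_le.1 hab
  have hδ0 : 0 ≤ δ := (abs_nonneg _).trans hab
  have ha2 : D / 2 ≤ a := by
    rcases le_max_iff.1 hmax with h | h <;> linarith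
  have hb2 : D / 2 ≤ b := by
    rcases le_max_iff.1 hmax with h | h <;> linarith
  have key : ∀ x y : ℝ, D / 2 ≤ x → D / 2 ≤ y → x - y ≤ δ →
      Real.log x - Real.log y ≤ 2 * δ / D := by
    intro x y hx hy hxy
    have hx0 : 0 < x := by linarith
    have hy0 : 0 < y := by linarith
    rw [← Real.log_div hx0.ne' hy0.ne']
    refine (Real.log_le_sub_one_of_pos (div_pos hx0 hy0)).trans ?_
    rw [div_sub_one hy0.ne', div_le_div_iff₀ hy0 hD]
    nlinarith
  rw [abs_le]
  constructor
  · have := key b a hb2 ha2 (by linarith)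
    linarith
  · exact key a b ha2 hb2 (by linarith)

theorem muf_ge {t : ℝ} (h0 : 0 ≤ t) (h1 : t ≤ 1/2) {l : List (Bool × Bool)} (hl : Top l) :
    BB ^ l.length ≤ muf t l := by
  unfold muf BB
  have h2 := Wf_ge h0 h1 l
  have h3 := Rf_ge_one h0 h1 hl
  have h4 := Wf_pos h0 h1 l
  nlinarith

/-- comparable contents: never close -/
theorem dom_far {t : ℝ} (h0 : 0 ≤ t) (h1 : t ≤ 1/2) {l l' : List (Bool × Bool)} (hl : Top l)
    (hi : cnt true l' ≤ cnt true l) (hj : cnt false l' ≤ cnt false l)
    (hne : cnt true l ≠ cnt true l' ∨ cnt false l ≠ cnt false l') :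
    C0 * max l.length l'.length < muf t l - muf t l' := by
  have hW := Wf_pos h0 h1 l
  have hW' := Wf_pos h0 h1 l'
  have hratio : BB * Wf t l' ≤ Wf t l := by
    have hBB : 0 < BB := by unfold BB; norm_num
    rw [← Real.log_le_log_iff (by positivity) hW, Real.log_mul hBB.ne' hW'.ne', log_Wf h0 h1,
      log_Wf h0 h1]
    have a1 : Real.log BB ≤ - Real.log (q t true) := by
      rw [← Real.log_inv]
      apply Real.log_le_log hBB
      rw [le_inv_comm₀ hBB (q_pos h0 h1 _)]
      have := q_small h0 h1 true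
      unfold BB; rw [inv_eq_one_div]; exact this
    have a2 : Real.log BB ≤ - Real.log (q t false) := by
      rw [← Real.log_inv]
      apply Real.log_le_log hBB
      rw [le_inv_comm₀ hBB (q_pos h0 h1 _)]
      have := q_small h0 h1 false
      unfold BB; rw [inv_eq_one_div]; exact this
    have a3 : 0 ≤ Real.log BB := Real.log_nonneg (by unfold BB; norm_num)
    have hi' : (cnt true l' : ℝ) ≤ cnt true l := by exact_mod_cast hi
    have hj' : (cnt false l' : ℝ) ≤ cnt false l := by exact_mod_cast hj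
    set X := - Real.log (q t true) with hX
    set Y := - Real.log (q t false) with hY
    have e1 : Real.log (q t true) = - X := by rw [hX]; ring
    have e2 : Real.log (q t false) = - Y := by rw [hY]; ring
    rw [e1, e2]
    rcases hne with h | h
    · have b1 : (cnt true l' : ℝ) + 1 ≤ cnt true l := by
        exact_mod_cast (show cnt true l' + 1 ≤ cnt true l by omega)
      nlinarith [mul_nonneg (sub_nonneg.2 hj') (a3.trans a2),
        mul_nonneg (sub_nonneg.2 b1) (a3.trans a1)]
    · have b1 : (cnt false l' : ℝ) + 1 ≤ cnt false l := by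
        exact_mod_cast (show cnt false l' + 1 ≤ cnt false l by omega)
      nlinarith [mul_nonneg (sub_nonneg.2 hi') (a3.trans a1),
        mul_nonneg (sub_nonneg.2 b1) (a3.trans a2)]
  have hlen : l'.length ≤ l.length := by
    rw [← cnt_add l, ← cnt_add l']; omega
  have hlen1 : 1 ≤ l.length := by
    obtain ⟨a, l'', rfl⟩ := hl; simp
  rw [max_eq_left hlen]
  have h2 := Wf_ge h0 h1 l
  have h3 := Rf_ge_one h0 h1 hl
  have h4 := Rf_le h0 h1 l'
  have h5 := BB_pow_ge l.length hlen1
  have h6 : Wf t l ≤ muf t l := by unfold muf; nlinarith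
  have h7 : muf t l' ≤ (11/10) * Wf t l' := by unfold muf; nlinarith
  have h8 : BB ^ l.length ≤ Wf t l := h2
  have h9 : (1:ℝ) ≤ l.length := by exact_mod_cast hlen1
  unfold C0
  unfold BB at *
  nlinarith

/-- the bad set of a pair of descriptors -/
def Bad (l l' : List (Bool × Bool)) : Set ℝ :=
  {t | 0 ≤ t ∧ t ≤ 1/2 ∧ Top l ∧ Top l' ∧ (cnt true l ≠ cnt true l' ∨ cnt false l ≠ cnt false l') ∧
    |muf t l - muf t l'| ≤ C0 * max l.length l'.length}

theorem bad_log {l l' : List (Bool × Bool)} {t : ℝ} (ht : t ∈ Bad l l') :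
    |Real.log (muf t l) - Real.log (muf t l')|
      ≤ 2 * (C0 * max l.length l'.length) / BB ^ (max l.length l'.length) := by
  obtain ⟨h0, h1, hl, hl', _, hb⟩ := ht
  have hBB : 0 < BB := by unfold BB; norm_num
  have hlen1 : 1 ≤ l.length := by
    obtain ⟨a, l'', rfl⟩ := hl; simp
  refine log_close (muf_pos h0 h1 hl) (muf_pos h0 h1 hl') hb (by positivity) ?_ ?_
  · rcases le_total l.length l'.length with h | h
    · rw [max_eq_right h]
      exact (muf_ge h0 h1 hl').trans (le_max_right _ _)
    · rw [max_eq_left h]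
      exact (muf_ge h0 h1 hl).trans (le_max_left _ _)
  · have h5 := BB_pow_ge (max l.length l'.length) (le_trans hlen1 (le_max_left _ _))
    have h7 : (0:ℝ) ≤ ((max l.length l'.length : ℕ) : ℝ) := Nat.cast_nonneg _
    unfold C0
    unfold BB at *
    nlinarith

theorem bad_diam {l l' : List (Bool × Bool)} {t t' : ℝ} (ht : t ∈ Bad l l') (ht' : t' ∈ Bad l l') :
    |t - t'| ≤ 8 * (C0 * max l.length l'.length) / BB ^ (max l.length l'.length) := by
  wlog htt : t ≤ t' generalizing t t'
  · rw [abs_sub_comm]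
    exact this ht' ht (le_of_not_ge htt)
  have g1 := bad_log ht
  have g2 := bad_log ht'
  obtain ⟨h0, h1, hl, hl', hne, hb⟩ := ht
  obtain ⟨h0', h1', _, _, _, hb'⟩ := ht'
  set δ := 2 * (C0 * ((max l.length l'.length : ℕ) : ℝ)) / BB ^ (max l.length l'.length) with hδ
  have goal : (1/2) * (t' - t) ≤ 2 * δ := by
    have k1 := abs_le.1 g1
    have k2 := abs_le.1 g2
    rcases le_total (cnt true l') (cnt true l) with hi | hi
    · rcases le_total (cnt false l) (cnt false l') with hj | hj
      · have := log_ratio h0 htt h1' hl hl' hi hj hne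
        linarith
      · exfalso
        have := dom_far h0 h1 hl hi hj hne
        have k3 := (abs_le.1 hb).2
        linarith
    · rcases le_total (cnt false l') (cnt false l) with hj | hj
      · have := log_ratio h0 htt h1' hl' hl hi hj (by
          rcases hne with h | h
          · left; exact h.symm
          · right; exact h.symm)
        linarith
      · exfalso
        have := dom_far h0 h1 hl' hi hj (by
          rcases hne with h | h
          · left; exact h.symm
          · right; exact h.symm)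
        rw [max_comm] at this
        have k3 := (abs_le.1 hb).1
        linarith
  have e : 8 * (C0 * ((max l.length l'.length : ℕ) : ℝ)) / BB ^ (max l.length l'.length)
      = 4 * δ := by rw [hδ]; ring
  rw [e, abs_sub_comm, abs_of_nonneg (by linarith)]
  linarith

/-- the bound used in the union bound -/
theorem rad_le (n n' : ℕ) :
    8 * (C0 * ((max n n' : ℕ) : ℝ)) / BB ^ (max n n')
      ≤ 4800000 * ((1/80000 : ℝ) ^ n * (1/80000 : ℝ) ^ n') := by
  set m := max n n' with hm
  have hBB : 0 < BB := by unfold BB; norm_num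
  have h2 : (m : ℝ) ≤ 2 ^ m := by exact_mod_cast (Nat.lt_two_pow_self).le
  have h3 : BB = 2 * (80000 : ℝ)^2 := by unfold BB; norm_num
  have h4 : (1/80000 : ℝ) ^ (2 * m) ≤ (1/80000 : ℝ) ^ n * (1/80000 : ℝ) ^ n' := by
    rw [← pow_add]
    apply pow_le_pow_of_le_one (by norm_num) (by norm_num)
    have a1 : n ≤ m := le_max_left _ _
    have a2 : n' ≤ m := le_max_right _ _
    omega
  have h5 : (m : ℝ) / BB ^ m ≤ (1/80000 : ℝ) ^ (2 * m) := by
    rw [h3, mul_pow, div_le_iff₀ (by positivity)]
    have : (1/80000 : ℝ) ^ (2 * m) * (2 ^ m * ((80000 : ℝ)^2) ^ m) = 2 ^ m := by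
      rw [pow_mul, mul_comm ((2:ℝ) ^ m), ← mul_assoc, ← mul_pow]
      norm_num
    rw [this]; exact h2
  calc 8 * (C0 * (m:ℝ)) / BB ^ m = 4800000 * ((m : ℝ) / BB ^ m) := by unfold C0; ring
    _ ≤ 4800000 * ((1/80000 : ℝ) ^ n * (1/80000 : ℝ) ^ n') := by
        have := h5.trans h4
        linarith

open MeasureTheory in
theorem volume_bad (l l' : List (Bool × Bool)) :
    volume (Bad l l') ≤ ENNReal.ofReal (9600000 *
      ((1/80000 : ℝ) ^ l.length * (1/80000 : ℝ) ^ l'.length)) := by
  rcases Set.eq_empty_or_nonempty (Bad l l') with h | ⟨t, ht⟩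
  · rw [h]; simp
  · have hlen1 : 1 ≤ l.length := by
      obtain ⟨a, l'', h⟩ := ht.2.2.1
      rw [h]; simp
    have hsub : Bad l l' ⊆ Metric.closedBall t (4800000 *
      ((1/80000 : ℝ) ^ l.length * (1/80000 : ℝ) ^ l'.length)) := by
      intro t' ht'
      rw [Metric.mem_closedBall, Real.dist_eq]
      exact (bad_diam ht' ht).trans (rad_le _ _)
    refine (measure_mono hsub).trans ?_
    rw [Real.volume_closedBall]
    apply ENNReal.ofReal_le_ofReal
    ring_nf
    exact le_rfl

end Pool.Agent.Work.MPa69bcc
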