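import Mathlib

set_option autoImplicit false

namespace Pool.Agent.Work.MPa69bcc

open MeasureTheory

/-- The law of one letter: letter `i` has probability `p i`. -/
noncomputable def letterLaw {s : ℕ} (p : Fin s → ℝ) : Measure (Fin s) :=
  ∑ i, ENNReal.ofReal (p i) • Measure.dirac i

/-- The law of a source for `p`: an infinite sequence of independent letters of law `letterLaw p`.
Coordinate `n` of a point `x : ℕ → Fin s` is the letter `X_{n+1}` of the source. -/
noncomputable def sourceLaw {s : ℕ} (p : Fin s → ℝ) : Measure (ℕ → Fin s) :=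
  Measure.infinitePi (fun _ => letterLaw p)

/-- The word `A` is completed at time `n` by the sequence `x`: one has `|A| ≤ n` and
`X_{n-|A|+1} ... X_n = A`. -/
def CompletedAt {s : ℕ} (A : List (Fin s)) (x : ℕ → Fin s) (n : ℕ) : Prop :=
  A.length ≤ n ∧ ∀ i : Fin A.length, x (n - A.length + i) = A.get i

/-- The waiting time `τ_A`: the least `n ≥ |A|` at which `A` is completed (`⊤` if there is none). -/
noncomputable def tau {s : ℕ} (A : List (Fin s)) (x : ℕ → Fin s) : ℕ∞ :=
  ⨅ (n : ℕ) (_ : CompletedAt A x n), (n : ℕ∞)

/-- The race probability `Pr(A > B)`: two independent sources for `p`, the word completed first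
wins, ties are decided by a fair coin. -/
noncomputable def race {s : ℕ} (p : Fin s → ℝ) (A B : List (Fin s)) : ℝ :=
  ((sourceLaw p).prod (sourceLaw p)).real {z | tau A z.1 < tau B z.2}
    + 1 / 2 * ((sourceLaw p).prod (sourceLaw p)).real {z | tau A z.1 = tau B z.2}

end Pool.Agent.Work.MPa69bcc
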