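import Pool.Agent.Work.MP_a69bcc_pr.Bad

set_option autoImplicit false

namespace Pool.Agent.Work.MPa69bcc

open Finset MeasureTheory

theorem tsum_list (G : ℕ → ENNReal) :
    ∑' l : List (Bool × Bool), G l.length = ∑' n : ℕ, (4:ENNReal) ^ n * G n := by
  rw [← (List.equivSigmaTuple (α := Bool × Bool)).symm.tsum_eq (fun l => G l.length)]
  rw [ENNReal.tsum_sigma']
  refine tsum_congr (fun n => ?_)
  have h1 : ∀ v : Fin n → Bool × Bool,
      G ((List.equivSigmaTuple (α := Bool × Bool)).symm ⟨n, v⟩).length = G n := by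
    intro v
    simp [List.equivSigmaTuple]
  rw [tsum_congr h1, tsum_fintype, sum_const, card_univ]
  simp

/-- summand -/
noncomputable def hh (n : ℕ) : ℝ := if n = 0 then 0 else (1/80000 : ℝ) ^ n

theorem tsum_hh : ∑' l : List (Bool × Bool), ENNReal.ofReal (hh l.length)
    ≤ ENNReal.ofReal (1/10000) := by
  rw [tsum_list (fun n => ENNReal.ofReal (hh n))]
  have h1 : ∀ n : ℕ, (4:ENNReal) ^ n * ENNReal.ofReal (hh n)
      = ENNReal.ofReal (if n = 0 then 0 else (1/20000 : ℝ) ^ n) := by
    intro n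
    have e4 : (4:ENNReal) ^ n = ENNReal.ofReal ((4:ℝ)^n) := by
      rw [ENNReal.ofReal_pow (by norm_num)]
      norm_num
    rw [e4, ← ENNReal.ofReal_mul (by positivity)]
    congr 1
    unfold hh
    split_ifs with h
    · simp
    · rw [← mul_pow]; norm_num
  rw [tsum_congr h1]
  have hnn : ∀ n : ℕ, 0 ≤ (if n = 0 then 0 else (1/20000 : ℝ) ^ n) := by
    intro n; split_ifs <;> positivity
  have hgeo : Summable (fun n : ℕ => (1/20000 : ℝ) ^ n) :=
    summable_geometric_of_lt_one (by norm_num) (by norm_num)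
  have hs : Summable (fun n : ℕ => (if n = 0 then 0 else (1/20000 : ℝ) ^ n)) := by
    refine Summable.of_nonneg_of_le hnn (fun n => ?_) hgeo
    split_ifs
    · positivity
    · exact le_rfl
  rw [← ENNReal.ofReal_tsum_of_nonneg hnn hs]
  apply ENNReal.ofReal_le_ofReal
  have h2 := hs.sum_add_tsum_nat_add 1
  simp only [range_one, sum_singleton, if_true, zero_add] at h2
  rw [← h2]
  have h3 : ∀ n : ℕ, (if n + 1 = 0 then 0 else (1/20000 : ℝ) ^ (n+1))
      = (1/20000) * (1/20000 : ℝ) ^ n := by
    intro n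
    rw [if_neg (by omega), pow_succ]; ring
  rw [tsum_congr h3, tsum_mul_left, tsum_geometric_of_lt_one (by norm_num) (by norm_num)]
  norm_num

theorem volume_bad' (l l' : List (Bool × Bool)) :
    volume (Bad l l') ≤ ENNReal.ofReal 9600000 *
      (ENNReal.ofReal (hh l.length) * ENNReal.ofReal (hh l'.length)) := by
  rcases Set.eq_empty_or_nonempty (Bad l l') with h | ⟨t, ht⟩
  · rw [h]; simp
  · have e1 : hh l.length = (1/80000 : ℝ) ^ l.length := by
      obtain ⟨a, l'', h⟩ := ht.2.2.1
      unfold hh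
      rw [if_neg]
      rw [h]; simp
    have e2 : hh l'.length = (1/80000 : ℝ) ^ l'.length := by
      obtain ⟨a, l'', h⟩ := ht.2.2.2.1
      unfold hh
      rw [if_neg]
      rw [h]; simp
    rw [e1, e2, ← ENNReal.ofReal_mul (by positivity), ← ENNReal.ofReal_mul (by positivity)]
    exact volume_bad l l'

/-- a generic parameter exists -/
theorem exists_good : ∃ t : ℝ, 0 < t ∧ t < 1/2 ∧ ∀ l l', t ∉ Bad l l' := by
  by_contra hcon
  push Not at hcon
  have hsub : Set.Ioo (0:ℝ) (1/2) ⊆
      ⋃ z : List (Bool × Bool) × List (Bool × Bool), Bad z.1 z.2 := by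
    intro t ht
    obtain ⟨l, l', h⟩ := hcon t ht.1 ht.2
    rw [Set.mem_iUnion]
    exact ⟨(l, l'), h⟩
  have h1 := (measure_mono hsub).trans (measure_iUnion_le (μ := volume) _)
  rw [Real.volume_Ioo] at h1
  have h2 : ∑' z : List (Bool × Bool) × List (Bool × Bool), volume (Bad z.1 z.2)
      ≤ ENNReal.ofReal 9600000 * (ENNReal.ofReal (1/10000) * ENNReal.ofReal (1/10000)) := by
    calc ∑' z : List (Bool × Bool) × List (Bool × Bool), volume (Bad z.1 z.2)
        ≤ ∑' z : List (Bool × Bool) × List (Bool × Bool), ENNReal.ofReal 9600000 *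
          (ENNReal.ofReal (hh z.1.length) * ENNReal.ofReal (hh z.2.length)) :=
          ENNReal.tsum_le_tsum (fun z => volume_bad' z.1 z.2)
      _ = ENNReal.ofReal 9600000 * ((∑' l : List (Bool × Bool), ENNReal.ofReal (hh l.length)) *
          (∑' l : List (Bool × Bool), ENNReal.ofReal (hh l.length))) := by
          rw [ENNReal.tsum_mul_left, ENNReal.tsum_prod']
          congr 1
          simp only [ENNReal.tsum_mul_left]
          rw [ENNReal.tsum_mul_right]
      _ ≤ _ := by
          gcongr <;> exact tsum_hh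
  have h3 := h1.trans h2
  rw [← ENNReal.ofReal_mul (by norm_num), ← ENNReal.ofReal_mul (by norm_num),
    ENNReal.ofReal_le_ofReal_iff (by norm_num)] at h3
  norm_num at h3

end Pool.Agent.Work.MPa69bcc
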