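import Pool.Agent.Work.MP_a69bcc_pr.Race
import Pool.Agent.Work.MP_a69bcc_pr.Exist

set_option autoImplicit false

namespace Pool.Agent.Work.MPa69bcc

open Finset

/-- the letter probabilities -/
noncomputable def pt (t : ℝ) (i : Fin (2 * NN)) : ℝ := q t (decide (i.val < NN))

theorem pt_pos {t : ℝ} (h0 : 0 ≤ t) (h1 : t ≤ 1/2) (i : Fin (2 * NN)) : 0 < pt t i :=
  q_pos h0 h1 _

theorem sum_pt_aux (n : ℕ) (x y : ℝ) :
    ∑ i : Fin (2 * n), (if i.val < n then x else y) = n * x + n * y := by
  rw [Finset.sum_ite, Finset.sum_const, Finset.sum_const]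
  have c1 : (Finset.univ.filter (fun x : Fin (2 * n) => x.val < n)).card = n := by
    rw [Fin.card_filter_val_lt]; omega
  have c2 : (Finset.univ.filter (fun x : Fin (2 * n) => ¬ x.val < n)).card = n := by
    have h2 := Finset.card_filter_add_card_filter_not
      (s := (Finset.univ : Finset (Fin (2 * n)))) (fun x => x.val < n)
    rw [c1, Finset.card_univ, Fintype.card_fin] at h2
    omega
  rw [c1, c2, nsmul_eq_mul, nsmul_eq_mul]

theorem sum_pt (t : ℝ) : ∑ i, pt t i = 1 := by
  have h1 : ∀ i : Fin (2 * NN), pt t i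
      = if i.val < NN then (1 - t) / (2 * NN) else (1 + t) / (2 * NN) := by
    intro i
    unfold pt q
    by_cases h : i.val < NN
    · rw [if_pos h, if_pos (decide_eq_true h)]
    · rw [if_neg h, if_neg]
      intro h'
      exact h (of_decide_eq_true h')
  have h2 : ∑ i, pt t i = ∑ i : Fin (2 * NN),
      (if i.val < NN then (1 - t) / (2 * NN) else (1 + t) / (2 * NN)) :=
    Finset.sum_congr rfl (fun i _ => h1 i)
  rw [h2, sum_pt_aux]
  have := NN_pos
  generalize (NN : ℝ) = z at *
  field_simp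
  ring

open Classical in
/-- descriptor of the prefix of length `k` -/
noncomputable def desc (L : ℕ) (a : ℕ → Fin (2 * NN)) : ℕ → List (Bool × Bool)
  | 0 => []
  | k+1 => (decide ((a k).val < NN), decide (Bord L a (k+1))) :: desc L a k

theorem length_desc (L : ℕ) (a : ℕ → Fin (2 * NN)) (k : ℕ) : (desc L a k).length = k := by
  induction k with
  | zero => rfl
  | succ k ih => simp [desc, ih]

theorem Wf_desc (t : ℝ) (L : ℕ) (a : ℕ → Fin (2 * NN)) (k : ℕ) :
    Wf t (desc L a k) = 1 / pw (pt t) a k := by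
  induction k with
  | zero => simp [desc, Wf, pw]
  | succ k ih =>
    simp only [desc, Wf]
    rw [ih]
    unfold pw
    rw [prod_range_succ, div_div]
    rfl

open Classical in
theorem muf_desc {t : ℝ} (h0 : 0 ≤ t) (h1 : t ≤ 1/2) (L : ℕ) (a : ℕ → Fin (2 * NN)) (k : ℕ) :
    muf t (desc L a k) = ∑ b ∈ range (k+1), rw' (pt t) L a b := by
  induction k with
  | zero =>
    simp only [desc, muf, Wf, Rf, zero_add, range_one, sum_singleton]
    unfold rw'
    rw [if_neg]
    · norm_num
    · intro h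
      have := h.1
      omega
  | succ k ih =>
    rw [sum_range_succ, ← ih]
    have hq := q_pos h0 h1 (decide ((a k).val < NN))
    have e : muf t (desc L a (k+1)) = muf t (desc L a k)
        + (if Bord L a (k+1) then 1 else 0) * Wf t (desc L a (k+1)) := by
      simp only [desc, muf, Wf, Rf]
      by_cases hb : Bord L a (k+1)
      · simp only [hb, decide_true, if_true]
        field_simp
        ring
      · simp only [hb, decide_false, if_false, Bool.false_eq_true]
        field_simp
        ring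
    rw [e, Wf_desc]
    unfold rw' pw
    split_ifs <;> simp

open Classical in
theorem top_desc {L : ℕ} {a : ℕ → Fin (2 * NN)} {k : ℕ} (h : Bord L a k) : Top (desc L a k) := by
  obtain ⟨j, rfl⟩ : ∃ j, k = j + 1 := ⟨k - 1, by have := h.1; omega⟩
  refine ⟨decide ((a j).val < NN), desc L a j, ?_⟩
  simp [desc, h]

theorem pw_pos {t : ℝ} (h0 : 0 ≤ t) (h1 : t ≤ 1/2) (a : ℕ → Fin (2 * NN)) (k : ℕ) :
    0 < pw (pt t) a k := prod_pos (fun _ _ => pt_pos h0 h1 _)

theorem pw_step {t : ℝ} (h0 : 0 ≤ t) (h1 : t ≤ 1/2) (a : ℕ → Fin (2 * NN)) (u k : ℕ) :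
    pw (pt t) a (u + k) * BB ^ k ≤ pw (pt t) a u := by
  induction k with
  | zero => simp
  | succ k ih =>
    have e : pw (pt t) a (u + (k+1)) = pw (pt t) a (u + k) * pt t (a (u+k)) := by
      unfold pw
      rw [show u + (k+1) = (u + k) + 1 by ring, prod_range_succ]
    have h2 : pt t (a (u+k)) * BB ≤ 1 := by
      have := q_small h0 h1 (decide ((a (u+k)).val < NN))
      unfold pt BB
      linarith
    have h3 := pw_pos h0 h1 a (u+k)
    have hB : (0:ℝ) < BB ^ k := by unfold BB; positivity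
    rw [e, pow_succ]
    calc pw (pt t) a (u + k) * pt t (a (u+k)) * (BB ^ k * BB)
        = (pw (pt t) a (u + k) * BB ^ k) * (pt t (a (u+k)) * BB) := by ring
      _ ≤ (pw (pt t) a (u + k) * BB ^ k) * 1 := by
          apply mul_le_mul_of_nonneg_left h2 (by positivity)
      _ ≤ pw (pt t) a u := by linarith

theorem pw_len {t : ℝ} (h0 : 0 ≤ t) (h1 : t ≤ 1/2) (a : ℕ → Fin (2 * NN)) (L : ℕ) (hL : 1 ≤ L) :
    (L : ℝ) * pw (pt t) a L * BB ≤ 1 := by
  have h2 := pw_step h0 h1 a 0 L
  rw [zero_add] at h2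
  have h3 : pw (pt t) a 0 = 1 := by simp [pw]
  rw [h3] at h2
  have h4 := BB_pow_ge L hL
  have h5 := pw_pos h0 h1 a L
  nlinarith

theorem small_pt {t : ℝ} (h0 : 0 ≤ t) (h1 : t ≤ 1/2) (a : ℕ → Fin (2 * NN)) {L : ℕ} (hL : 1 ≤ L) :
    pw (pt t) a L * ∑ b ∈ range L, rw' (pt t) L a b ≤ 1/5 := by
  have e := muf_desc h0 h1 L a L
  rw [sum_range_succ] at e
  have hb : Bord L a L := ⟨hL, le_rfl, fun j _ => by simp⟩
  have e2 : rw' (pt t) L a L = 1 / pw (pt t) a L := by
    unfold rw' pw; rw [if_pos hb]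
  rw [e2] at e
  unfold muf at e
  rw [Wf_desc] at e
  have h3 := Rf_le h0 h1 (desc L a L)
  have h5 := pw_pos h0 h1 a L
  have h6 : ∑ b ∈ range L, rw' (pt t) L a b
      = 1 / pw (pt t) a L * (Rf t (desc L a L) - 1) := by linarith
  rw [h6, ← mul_assoc, mul_one_div_cancel h5.ne', one_mul]
  linarith

theorem wt_pt {t : ℝ} (h0 : 0 ≤ t) (h1 : t ≤ 1/2) (a : ℕ → Fin (2 * NN)) {L : ℕ} (hL : 1 ≤ L) :
    WT L (pw (pt t) a L) (rw' (pt t) L a) (ff (pt t) L a) (SS (pt t) L a) :=
  wt_of (pt_pos h0 h1) (sum_pt t) hL a (small_pt h0 h1 a hL)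

/-- lower bound for the kernel in the near case -/
theorem kernel_lower {L L' : ℕ} {P P' : ℝ} {r r' a c Sa Sc : ℕ → ℝ}
    (hX : WT L P r a Sa) (hY : WT L' P' r' c Sc) (n1 : P ≤ 6/5 * P') (n2 : P' ≤ 12/5 * P)
    (hLP : (L : ℝ) * P * BB ≤ 1) (hLP' : (L' : ℝ) * P' * BB ≤ 1) :
    P' ≤ 50000 * K a c 0 := by
  have p1 := hX.Ppos
  have p2 := hY.Ppos
  set Pm := max P P' with hPm
  have hPm0 : 0 < Pm := lt_of_lt_of_le p1 (le_max_left _ _)
  have hPm1 : Pm ≤ 12/5 * P := max_le (by linarith) n2
  have hPm2 : Pm ≤ 6/5 * P' := max_le n1 (by linarith)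
  set z := 1 / (16 * Pm) with hz
  have hzP : z * (16 * Pm) = 1 := by rw [hz]; field_simp
  have hLz : (L : ℝ) ≤ z := by
    have hL0 : (0:ℝ) ≤ L := Nat.cast_nonneg _
    have : (L : ℝ) * (16 * Pm) ≤ 1 := by
      have h3 : (L : ℝ) * (16 * Pm) ≤ (L : ℝ) * (16 * (12/5 * P)) := by gcongr
      unfold BB at hLP
      have h4 : 0 ≤ (L : ℝ) * P := by positivity
      nlinarith
    rw [hz, le_div_iff₀ (by positivity)]; exact this
  have hLz' : (L' : ℝ) ≤ z := by
    have hL0 : (0:ℝ) ≤ L' := Nat.cast_nonneg _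
    have : (L' : ℝ) * (16 * Pm) ≤ 1 := by
      have h3 : (L' : ℝ) * (16 * Pm) ≤ (L' : ℝ) * (16 * (6/5 * P')) := by gcongr
      unfold BB at hLP'
      have h4 : 0 ≤ (L' : ℝ) * P' := by positivity
      nlinarith
    rw [hz, le_div_iff₀ (by positivity)]; exact this
  have hz1 : 1 ≤ z := le_trans (by exact_mod_cast hX.Lpos) hLz
  set T := ⌊z⌋₊ with hT
  have hTz : (T : ℝ) ≤ z := Nat.floor_le (by linarith)
  have hT1 : 1 ≤ T := (Nat.one_le_floor_iff _).2 hz1
  have hTz2 : z / 2 ≤ T := by
    have h3 : z < T + 1 := Nat.lt_floor_add_one z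
    have h4 : (1:ℝ) ≤ T := by exact_mod_cast hT1
    linarith
  have hLT : L ≤ T := Nat.le_floor hLz
  have hLT' : L' ≤ T := Nat.le_floor hLz'
  have h4 : ((4 * T : ℕ) : ℝ) * P ≤ 1/4 := by
    push_cast
    have : P ≤ Pm := le_max_left _ _
    have h5 : (T : ℝ) * P ≤ z * Pm := by gcongr
    nlinarith
  have h4' : ((4 * T : ℕ) : ℝ) * P' ≤ 1/4 := by
    push_cast
    have : P' ≤ Pm := le_max_right _ _
    have h5 : (T : ℝ) * P' ≤ z * Pm := by gcongr
    nlinarith
  have hK := K_zero_ge hX hY T hLT hLT' h4 h4'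
  have h6 : (z/2)^2 * P^2 * P' / 8 ≤ (T : ℝ)^2 * P^2 * P' / 8 := by
    have : (z/2)^2 ≤ (T:ℝ)^2 := by
      apply pow_le_pow_left₀ (by linarith) hTz2
    gcongr
  have h7 : 5 / 192 ≤ z * P := by
    have : z * (12/5 * P) * 16 ≥ 1 := by nlinarith
    linarith
  have h8 : (5/192)^2 ≤ (z * P)^2 := pow_le_pow_left₀ (by norm_num) h7 2
  have h9 : (z/2)^2 * P^2 * P' / 8 = (z*P)^2 * P' / 32 := by ring
  rw [h9] at h6
  have h10 : (5/192)^2 * P' / 32 ≤ (z*P)^2 * P' / 32 := by gcongr
  have h11 : (5/192)^2 * P' / 32 ≤ K a c 0 := by linarith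
  norm_num at h11
  linarith

/-- the order of the races is the order of the means -/
theorem sign_le {t : ℝ} (h0 : 0 < t) (h1 : t < 1/2) (hgood : ∀ l l', t ∉ Bad l l')
    {L L' : ℕ} (hL : 1 ≤ L) (hL' : 1 ≤ L') (a a' : ℕ → Fin (2 * NN))
    (hmu : WT.mu L' (rw' (pt t) L' a') ≤ WT.mu L (rw' (pt t) L a)) :
    R2 (ff (pt t) L a) (SS (pt t) L' a') ≤ 1 := by
  classical
  have g0 := h0.le
  have g1 := h1.le
  have hX := wt_pt g0 g1 a hL
  have hY := wt_pt g0 g1 a' hL'
  have mX := muf_desc g0 g1 L a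
  have mY := muf_desc g0 g1 L' a'
  have lX := pw_len g0 g1 a L hL
  have lY := pw_len g0 g1 a' L' hL'
  have wX := Wf_desc t L a
  have wY := Wf_desc t L' a'
  have sX := pw_step g0 g1 a
  have sY := pw_step g0 g1 a'
  set P := pw (pt t) a L with hP
  set P' := pw (pt t) a' L' with hP'
  set r := rw' (pt t) L a with hr
  set r' := rw' (pt t) L' a' with hr'
  set fa := ff (pt t) L a with hfa
  set Sa := SS (pt t) L a with hSa
  set c := ff (pt t) L' a' with hc
  set Sc := SS (pt t) L' a' with hSc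
  have p1 := hX.Ppos
  have p2 := hY.Ppos
  have m1 := hX.mu_le
  have m2 := hY.mu_le
  have m3 := hX.mu_ge
  have m4 := hY.mu_ge
  have m5 := hX.mu_pos
  have m6 := hY.mu_pos
  by_cases hfar : 2 * P * WT.mu L' r' ≤ 1
  · exact (R2_far hX hY).trans hfar
  push Not at hfar
  -- near case
  have n1 : P ≤ 6/5 * P' := by
    have h2 : 1 / P' * P ≤ 6/5 := by
      calc 1 / P' * P ≤ WT.mu L r * P := by
            apply mul_le_mul_of_nonneg_right (m4.trans hmu) p1.le
        _ = P * WT.mu L r := mul_comm _ _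
        _ ≤ 6/5 := m1
    have h3 : P = (1 / P' * P) * P' := by field_simp
    rw [h3]
    exact mul_le_mul_of_nonneg_right h2 p2.le
  have n2 : P' ≤ 12/5 * P := by
    have h2 : P' * 1 ≤ P' * (2 * P * WT.mu L' r') := by
      apply mul_le_mul_of_nonneg_left hfar.le p2.le
    have h3 : P' * (2 * P * WT.mu L' r') = 2 * P * (P' * WT.mu L' r') := by ring
    rw [h3] at h2
    have h4 : 2 * P * (P' * WT.mu L' r') ≤ 2 * P * (6/5) := by
      apply mul_le_mul_of_nonneg_left m2 (by positivity)
    linarith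
  have hK := kernel_lower hX hY n1 n2 lX lY
  have hK0 : 0 ≤ K fa c 0 := by linarith
  set M := max L L' with hM
  have hLM : L ≤ M := le_max_left _ _
  have hLM' : L' ≤ M := le_max_right _ _
  have hMP : (M : ℝ) * P * BB ≤ 6/5 := by
    rcases le_total L L' with h | h
    · rw [hM, max_eq_right h]
      have hl : (0:ℝ) ≤ L' := Nat.cast_nonneg _
      have hB : (0:ℝ) < BB := by unfold BB; norm_num
      have : (L' : ℝ) * P * BB ≤ (L' : ℝ) * (6/5 * P') * BB := by gcongr
      linarith
    · rw [hM, max_eq_left h]; linarith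
  refine R2_near hX hY hLM hLM' (κ := 50000) hK hK0 ?_
  set Df := ∑ b ∈ range (M+1), |r' b - r b| with hDf
  have hDf0 : 0 ≤ Df := sum_nonneg (fun _ _ => abs_nonneg _)
  by_cases hall : ∀ b ∈ range (M+1), r' b = r b
  · have : Df = 0 := by
      rw [hDf]
      refine sum_eq_zero (fun b hb => ?_)
      rw [hall b hb]; simp
    rw [this]; linarith
  push Not at hall
  -- the largest index of difference
  obtain ⟨bs, hbs, hbs2, hbs3⟩ : ∃ bs, bs ≤ M ∧ r' bs ≠ r bs ∧
      ∀ b, bs < b → b ≤ M → r' b = r b := by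
    obtain ⟨b0, hb0, hb0'⟩ := hall
    have hne : ((range (M+1)).filter (fun b => r' b ≠ r b)).Nonempty :=
      ⟨b0, by simp only [mem_filter]; exact ⟨hb0, hb0'⟩⟩
    obtain ⟨bs, hbs, hmax⟩ := Finset.exists_max_image _ (fun b => b) hne
    simp only [mem_filter, mem_range] at hbs hmax
    refine ⟨bs, by omega, hbs.2, fun b hb1 hb2 => ?_⟩
    by_contra hc
    have := hmax b ⟨by omega, hc⟩
    omega
  set A := ∑ b ∈ range (bs+1), r b with hA
  set A' := ∑ b ∈ range (bs+1), r' b with hA'
  have rn := hX.r_nonneg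
  have rn' := hY.r_nonneg
  have hmuX : WT.mu L r = ∑ b ∈ range (M+1), r b := by
    have := sum_extend hX hLM (fun _ => (1:ℝ))
    simp only [mul_one] at this
    rw [this]; rfl
  have hmuY : WT.mu L' r' = ∑ b ∈ range (M+1), r' b := by
    have := sum_extend hY hLM' (fun _ => (1:ℝ))
    simp only [mul_one] at this
    rw [this]; rfl
  have hsplit : ∀ F : ℕ → ℝ, ∑ b ∈ range (M+1), F b
      = ∑ b ∈ range (bs+1), F b + ∑ b ∈ Finset.Ico (bs+1) (M+1), F b := by
    intro F
    rw [Finset.sum_range_add_sum_Ico _ (by omega)]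
  have htail : ∑ b ∈ Finset.Ico (bs+1) (M+1), r b = ∑ b ∈ Finset.Ico (bs+1) (M+1), r' b := by
    refine sum_congr rfl (fun b hb => ?_)
    rw [mem_Ico] at hb
    exact (hbs3 b (by omega) (by omega)).symm
  have hdiff : WT.mu L r - WT.mu L' r' = A - A' := by
    rw [hmuX, hmuY, hsplit r, hsplit r', htail]; ring
  have hAA : A' ≤ A := by linarith
  have hDfle : Df ≤ A + A' := by
    rw [hDf, hsplit]
    have h3 : ∑ b ∈ Finset.Ico (bs+1) (M+1), |r' b - r b| = 0 := by
      refine sum_eq_zero (fun b hb => ?_)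
      rw [mem_Ico] at hb
      rw [hbs3 b (by omega) (by omega)]; simp
    rw [h3, add_zero, hA, hA', ← sum_add_distrib]
    refine sum_le_sum (fun b _ => ?_)
    rw [abs_le]
    constructor <;> linarith [rn b, rn' b]
  suffices hs : 250000 * M * P * Df ≤ A - A' by
    have : 5 * 50000 * (M:ℝ) * P * Df = 250000 * M * P * Df := by ring
    rw [this]; linarith
  -- truncated words
  have rz : r 0 = 0 := by
    rw [hr]; unfold rw'; rw [if_neg]; intro h; have := h.1; omega
  have rz' : r' 0 = 0 := by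
    rw [hr']; unfold rw'; rw [if_neg]; intro h; have := h.1; omega
  have rB : ∀ b, r b ≠ 0 → Bord L a b := by
    intro b hb
    by_contra hc
    apply hb
    rw [hr]; unfold rw'; rw [if_neg hc]
  have rB' : ∀ b, r' b ≠ 0 → Bord L' a' b := by
    intro b hb
    by_contra hc
    apply hb
    rw [hr']; unfold rw'; rw [if_neg hc]
  have rV : ∀ b, r b ≠ 0 → r b = 1 / pw (pt t) a b := by
    intro b hb
    have := rB b hb
    rw [hr]; unfold rw' pw; rw [if_pos this]
  have rV' : ∀ b, r' b ≠ 0 → r' b = 1 / pw (pt t) a' b := by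
    intro b hb
    have := rB' b hb
    rw [hr']; unfold rw' pw; rw [if_pos this]
  set u := Nat.findGreatest (fun b => r b ≠ 0) bs with hu
  set v := Nat.findGreatest (fun b => r' b ≠ 0) bs with hv
  have hule : u ≤ bs := Nat.findGreatest_le _
  have hvle : v ≤ bs := Nat.findGreatest_le _
  have hAu : A = muf t (desc L a u) := by
    rw [mX, hA]
    symm
    refine sum_subset (fun x hx => ?_) (fun x hx hx' => ?_)
    · rw [mem_range] at *; omega
    · rw [mem_range] at *
      by_contra hc
      exact Nat.findGreatest_is_greatest (P := fun b => r b ≠ 0) (n := bs) (k := x) (by omega)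
        (by omega) hc
  have hAv : A' = muf t (desc L' a' v) := by
    rw [mY, hA']
    symm
    refine sum_subset (fun x hx => ?_) (fun x hx hx' => ?_)
    · rw [mem_range] at *; omega
    · rw [mem_range] at *
      by_contra hc
      exact Nat.findGreatest_is_greatest (P := fun b => r' b ≠ 0) (n := bs) (k := x) (by omega)
        (by omega) hc
  have hbs1 : 1 ≤ bs := by
    by_contra h
    have : bs = 0 := by omega
    rw [this, rz, rz'] at hbs2
    exact hbs2 rfl
  have huv : u = bs ∨ v = bs := by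
    by_cases h : r bs = 0
    · right
      have h' : r' bs ≠ 0 := by rw [← h]; exact hbs2
      exact le_antisymm hvle (Nat.le_findGreatest le_rfl h')
    · left
      exact le_antisymm hule (Nat.le_findGreatest le_rfl h)
  have hunz : u ≠ 0 → r u ≠ 0 := fun h => Nat.findGreatest_of_ne_zero (P := fun b => r b ≠ 0) hu.symm h
  have hvnz : v ≠ 0 → r' v ≠ 0 := fun h => Nat.findGreatest_of_ne_zero (P := fun b => r' b ≠ 0) hv.symm h
  by_cases hv0 : v = 0
  · -- no border of the second word below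
    have hA'0 : A' = 0 := by
      rw [hAv, hv0]; simp [desc, muf, Rf]
    have hA0 : 0 ≤ A := sum_nonneg (fun b _ => rn b)
    rw [hA'0] at hDfle ⊢
    have h3 : 250000 * (M:ℝ) * P ≤ 1 := by unfold BB at hMP; linarith
    have h4 : 0 ≤ 250000 * (M:ℝ) * P := by positivity
    calc 250000 * (M:ℝ) * P * Df ≤ 1 * A := by
          apply mul_le_mul h3 (by linarith) hDf0 (by norm_num)
      _ = A - 0 := by ring
  by_cases hu0 : u = 0
  · exfalso
    have hA0 : A = 0 := by
      rw [hAu, hu0]; simp [desc, muf, Rf]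
    have hA'pos : 0 < A' := by
      have h3 : 0 < r' v := lt_of_le_of_ne (rn' v) (Ne.symm (hvnz hv0))
      have h4 : r' v ≤ A' := by
        rw [hA']
        exact single_le_sum (fun b _ => rn' b) (by rw [mem_range]; omega)
      linarith
    linarith
  -- both nonempty
  have hTu : Top (desc L a u) := top_desc (rB u (hunz hu0))
  have hTv : Top (desc L' a' v) := top_desc (rB' v (hvnz hv0))
  have hmaxuv : max u v = bs := by
    rcases huv with h | h
    · rw [h]; exact max_eq_left hvle
    · rw [h]; exact max_eq_right hule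
  have hcnt : cnt true (desc L a u) ≠ cnt true (desc L' a' v) ∨
      cnt false (desc L a u) ≠ cnt false (desc L' a' v) := by
    by_contra hc
    push Not at hc
    have huv2 : u = v := by
      have e1 := cnt_add (desc L a u)
      have e2 := cnt_add (desc L' a' v)
      rw [length_desc] at e1 e2
      omega
    have hubs : u = bs := by
      rcases huv with h | h
      · exact h
      · rw [huv2]; exact h
    have hvbs : v = bs := by rw [← huv2]; exact hubs
    have hW : Wf t (desc L a u) = Wf t (desc L' a' v) := by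
      apply Real.log_injOn_pos (Set.mem_Ioi.2 (Wf_pos g0 g1 _)) (Set.mem_Ioi.2 (Wf_pos g0 g1 _))
      rw [log_Wf g0 g1, log_Wf g0 g1, hc.1, hc.2]
    rw [wX, wY] at hW
    apply hbs2
    rw [← hubs, rV u (hunz hu0), hW, huv2, rV' v (hvnz hv0)]
  have hbig : C0 * bs < A - A' := by
    have hnb := hgood (desc L a u) (desc L' a' v)
    have h3 : ¬ (|muf t (desc L a u) - muf t (desc L' a' v)|
        ≤ C0 * ((max (desc L a u).length (desc L' a' v).length : ℕ) : ℝ)) := by
      intro h
      exact hnb ⟨g0, g1, hTu, hTv, hcnt, h⟩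
    rw [length_desc, length_desc, hmaxuv, ← hAu, ← hAv, abs_of_nonneg (by linarith)] at h3
    push Not at h3
    exact h3
  refine le_trans ?_ hbig.le
  unfold C0
  have hM1 : (0:ℝ) ≤ M := Nat.cast_nonneg _
  rcases Nat.lt_or_eq_of_le hbs with hlt | heq
  · -- the tops agree
    have hLM2 : L = M := by
      by_contra hne
      have h3 : L' = M := by
        rcases max_choice L L' with h | h
        · exact absurd h.symm (by rw [← hM]; exact hne)
        · rw [hM]; exact h.symm
      have h4 := hbs3 M hlt le_rfl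
      rw [hX.r_zero M (by omega)] at h4
      have h5 := hY.r_L
      rw [h3] at h5
      rw [h5] at h4
      exact absurd h4 (by positivity)
    have hLM2' : L' = M := by
      by_contra hne
      have h4 := hbs3 M hlt le_rfl
      rw [hY.r_zero M (by omega)] at h4
      have h5 := hX.r_L
      rw [hLM2] at h5
      rw [h5] at h4
      exact absurd h4.symm (by positivity)
    have hPP : P = P' := by
      have h4 := hbs3 M hlt le_rfl
      have h5 := hX.r_L
      have h6 := hY.r_L
      rw [hLM2] at h5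
      rw [hLM2'] at h6
      rw [h5, h6] at h4
      have := (div_eq_div_iff p2.ne' p1.ne').1 h4
      linarith
    obtain ⟨k, hk⟩ : ∃ k, M = bs + k := ⟨M - bs, by omega⟩
    have hk1 : 1 ≤ k := by omega
    have hB : (0:ℝ) < BB ^ k := by unfold BB; positivity
    have hPA : P * A * BB ^ k ≤ 11/10 := by
      have hst := sX u (M - u)
      rw [show u + (M - u) = M by omega, ← hLM2, ← hP] at hst
      have hpu := pw_pos g0 g1 a u
      have hpow : BB ^ k ≤ BB ^ (L - u) := by
        apply pow_le_pow_right₀ (by unfold BB; norm_num)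
        omega
      have h7 : P * BB ^ k ≤ pw (pt t) a u := by
        refine le_trans ?_ hst
        gcongr
      rw [hAu]
      unfold muf
      rw [wX]
      have hR := Rf_le g0 g1 (desc L a u)
      have hR0 := Rf_nonneg g0 g1 (desc L a u)
      calc P * (1 / pw (pt t) a u * Rf t (desc L a u)) * BB ^ k
          = (P * BB ^ k) * (1 / pw (pt t) a u) * Rf t (desc L a u) := by ring
        _ ≤ pw (pt t) a u * (1 / pw (pt t) a u) * Rf t (desc L a u) := by gcongr
        _ = Rf t (desc L a u) := by rw [mul_one_div_cancel hpu.ne', one_mul]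
        _ ≤ 11/10 := hR
    have hPA' : P * A' * BB ^ k ≤ 11/10 := by
      have h8 : P * A' * BB ^ k ≤ P * A * BB ^ k := by gcongr
      linarith
    have hMk : (M:ℝ) ≤ bs * BB ^ k := by
      have h9 : bs + k ≤ bs * 2 ^ k := by
        have h10 : k + 1 ≤ 2 ^ k := Nat.lt_two_pow_self
        calc bs + k ≤ bs * (k + 1) := by nlinarith
          _ ≤ bs * 2 ^ k := Nat.mul_le_mul_left _ h10
      have h11 : (M:ℝ) ≤ bs * 2 ^ k := by rw [hk]; exact_mod_cast h9
      refine h11.trans ?_
      have : (2:ℝ)^k ≤ BB ^ k := pow_le_pow_left₀ (by norm_num) (by unfold BB; norm_num) k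
      gcongr
    have hPD : P * Df * BB ^ k ≤ 22/10 := by
      have : P * Df * BB ^ k ≤ P * (A + A') * BB ^ k := by gcongr
      nlinarith
    have hbs0 : (0:ℝ) ≤ bs := Nat.cast_nonneg _
    calc 250000 * (M:ℝ) * P * Df ≤ 250000 * (bs * BB ^ k) * P * Df := by gcongr
      _ = 250000 * bs * (P * Df * BB ^ k) := by ring
      _ ≤ 250000 * bs * (22/10) := by gcongr
      _ ≤ 600000 * bs := by linarith
  · have hPD : P * Df ≤ 12/5 := by
      have h3 : A ≤ WT.mu L r := by
        rw [hmuX, hsplit]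
        have : 0 ≤ ∑ b ∈ Finset.Ico (bs+1) (M+1), r b := sum_nonneg (fun b _ => rn b)
        linarith
      have h4 : P * Df ≤ P * (2 * WT.mu L r) := by
        apply mul_le_mul_of_nonneg_left _ p1.le
        linarith
      linarith
    rw [heq]
    calc 250000 * (M:ℝ) * P * Df = 250000 * M * (P * Df) := by ring
      _ ≤ 250000 * M * (12/5) := by gcongr
      _ = 600000 * M := by ring

end Pool.Agent.Work.MPa69bcc
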