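import Mathlib

set_option autoImplicit false

namespace Pool.Agent.Work.MPa69bcc

open Finset

/-- half the number of letters -/
@[irreducible] def NN : ℕ := 10000000000

/-- letter probability of a type, as a function of the parameter -/
noncomputable def q (t : ℝ) (b : Bool) : ℝ := if b then (1 - t) / (2 * NN) else (1 + t) / (2 * NN)

/-- reciprocal probability of a descriptor (last letter first) -/
noncomputable def Wf (t : ℝ) : List (Bool × Bool) → ℝ
  | [] => 1
  | z :: l => Wf t l / q t z.1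

/-- normalised mean of a descriptor -/
noncomputable def Rf (t : ℝ) : List (Bool × Bool) → ℝ
  | [] => 0
  | z :: l => (if z.2 then 1 else 0) + q t z.1 * Rf t l

/-- mean of a descriptor -/
noncomputable def muf (t : ℝ) (l : List (Bool × Bool)) : ℝ := Wf t l * Rf t l

/-- number of letters of type `b` -/
def cnt (b : Bool) : List (Bool × Bool) → ℕ
  | [] => 0
  | z :: l => (if z.1 = b then 1 else 0) + cnt b l

theorem cnt_add (l : List (Bool × Bool)) : cnt true l + cnt false l = l.length := by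
  induction l with
  | nil => rfl
  | cons z l ih =>
    obtain ⟨a, b⟩ := z
    cases a <;> simp [cnt] <;> omega

theorem NN_pos : (0:ℝ) < NN := by unfold NN; norm_num

theorem q_pos {t : ℝ} (h0 : 0 ≤ t) (h1 : t ≤ 1/2) (b : Bool) : 0 < q t b := by
  unfold q
  have := NN_pos
  split_ifs
  · apply div_pos <;> linarith
  · apply div_pos <;> linarith

theorem q_le {t : ℝ} (h0 : 0 ≤ t) (h1 : t ≤ 1/2) (b : Bool) : q t b ≤ 3 / (4 * NN) := by
  unfold q
  have := NN_pos
  split_ifs
  · rw [div_le_div_iff₀ (by linarith) (by linarith)]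
    nlinarith
  · rw [div_le_div_iff₀ (by linarith) (by linarith)]
    nlinarith

theorem q_small {t : ℝ} (h0 : 0 ≤ t) (h1 : t ≤ 1/2) (b : Bool) : q t b ≤ 1 / 12800000000 := by
  refine (q_le h0 h1 b).trans ?_
  unfold NN
  norm_num

theorem q_lip (t t' : ℝ) (b : Bool) : |q t b - q t' b| ≤ |t - t'| / (2 * NN) := by
  unfold q
  have := NN_pos
  split_ifs
  · rw [← sub_div, abs_div, abs_of_pos (show (0:ℝ) < 2 * NN by linarith)]
    rw [show 1 - t - (1 - t') = -(t - t') by ring, abs_neg]
  · rw [← sub_div, abs_div, abs_of_pos (show (0:ℝ) < 2 * NN by linarith)]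
    rw [show 1 + t - (1 + t') = (t - t') by ring]

theorem Wf_pos {t : ℝ} (h0 : 0 ≤ t) (h1 : t ≤ 1/2) (l : List (Bool × Bool)) : 0 < Wf t l := by
  induction l with
  | nil => simp [Wf]
  | cons z l ih => simp only [Wf]; exact div_pos ih (q_pos h0 h1 _)

theorem Wf_ge {t : ℝ} (h0 : 0 ≤ t) (h1 : t ≤ 1/2) (l : List (Bool × Bool)) :
    (12800000000:ℝ) ^ l.length ≤ Wf t l := by
  induction l with
  | nil => simp [Wf]
  | cons z l ih =>
    simp only [Wf, List.length_cons]
    rw [le_div_iff₀ (q_pos h0 h1 _), pow_succ]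
    have h2 := q_small h0 h1 z.1
    have h3 := q_pos h0 h1 z.1
    have h4 : (0:ℝ) < 12800000000 ^ l.length := by positivity
    have h5 : 12800000000 * q t z.1 ≤ 1 := by linarith
    calc (12800000000:ℝ) ^ l.length * 12800000000 * q t z.1
        = (12800000000:ℝ) ^ l.length * (12800000000 * q t z.1) := by ring
      _ ≤ (12800000000:ℝ) ^ l.length * 1 := by gcongr
      _ ≤ Wf t l := by linarith

theorem Rf_nonneg {t : ℝ} (h0 : 0 ≤ t) (h1 : t ≤ 1/2) (l : List (Bool × Bool)) : 0 ≤ Rf t l := by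
  induction l with
  | nil => simp [Rf]
  | cons z l ih =>
    simp only [Rf]
    have := mul_nonneg (q_pos h0 h1 z.1).le ih
    split_ifs <;> linarith

theorem Rf_le {t : ℝ} (h0 : 0 ≤ t) (h1 : t ≤ 1/2) (l : List (Bool × Bool)) : Rf t l ≤ 11/10 := by
  induction l with
  | nil => simp [Rf]; norm_num
  | cons z l ih =>
    simp only [Rf]
    have h2 := q_small h0 h1 z.1
    have h3 := q_pos h0 h1 z.1
    have h4 := Rf_nonneg h0 h1 l
    have : q t z.1 * Rf t l ≤ 1 / 12800000000 * (11/10) := by gcongr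
    split_ifs <;> linarith

theorem Rf_lip {t t' : ℝ} (h0 : 0 ≤ t) (h1 : t ≤ 1/2) (h0' : 0 ≤ t') (h1' : t' ≤ 1/2)
    (l : List (Bool × Bool)) : |Rf t l - Rf t' l| ≤ |t - t'| / NN := by
  have hN := NN_pos
  induction l with
  | nil => simp [Rf]; positivity
  | cons z l ih =>
    simp only [Rf]
    have e : (if z.2 = true then (1:ℝ) else 0) + q t z.1 * Rf t l -
        ((if z.2 = true then (1:ℝ) else 0) + q t' z.1 * Rf t' l)
        = (q t z.1 - q t' z.1) * Rf t l + q t' z.1 * (Rf t l - Rf t' l) := by ring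
    rw [e]
    refine (abs_add_le _ _).trans ?_
    rw [abs_mul, abs_mul]
    have a1 := q_lip t t' z.1
    have a2 := Rf_le h0 h1 l
    have a3 := Rf_nonneg h0 h1 l
    have a4 := q_small h0' h1' z.1
    have a5 := q_pos h0' h1' z.1
    rw [abs_of_nonneg a3, abs_of_pos a5]
    have b1 : |q t z.1 - q t' z.1| * Rf t l ≤ |t - t'| / (2 * NN) * (11/10) := by gcongr
    have b2 : q t' z.1 * |Rf t l - Rf t' l| ≤ 1 / 12800000000 * (|t - t'| / NN) := by gcongr
    have b3 : |t - t'| / (2 * NN) = (|t - t'| / NN) / 2 := by ring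
    have b4 : 0 ≤ |t - t'| / NN := by positivity
    rw [b3] at b1
    linarith

theorem log_Wf {t : ℝ} (h0 : 0 ≤ t) (h1 : t ≤ 1/2) (l : List (Bool × Bool)) :
    Real.log (Wf t l) = - (cnt true l : ℝ) * Real.log (q t true)
      - (cnt false l : ℝ) * Real.log (q t false) := by
  induction l with
  | nil => simp [Wf, cnt]
  | cons z l ih =>
    simp only [Wf, cnt]
    rw [Real.log_div (Wf_pos h0 h1 l).ne' (q_pos h0 h1 _).ne', ih]
    obtain ⟨a, b⟩ := z
    cases a <;> simp <;> ring

/-- slope estimate for the logarithm of the probability of the first type -/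
theorem log_q_true {t t' : ℝ} (h0 : 0 ≤ t) (htt : t ≤ t') (h1' : t' ≤ 1/2) :
    t' - t ≤ Real.log (q t true) - Real.log (q t' true) := by
  have hN := NN_pos
  rw [← Real.log_div (q_pos h0 (by linarith) _).ne' (q_pos (by linarith) h1' _).ne']
  have e : q t true / q t' true = (1 - t) / (1 - t') := by
    simp only [q, if_true]
    rw [div_div_div_cancel_right₀ (by positivity)]
  rw [e]
  have h2 : 0 < (1 - t) / (1 - t') := div_pos (by linarith) (by linarith)
  have h3 := Real.one_sub_inv_le_log_of_pos h2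
  refine le_trans ?_ h3
  rw [inv_div]
  have h4 : 0 < 1 - t := by linarith
  rw [le_sub_iff_add_le, ← le_sub_iff_add_le']
  rw [div_le_iff₀ h4]
  nlinarith

theorem log_q_false {t t' : ℝ} (h0 : 0 ≤ t) (htt : t ≤ t') (h1' : t' ≤ 1/2) :
    (2/3) * (t' - t) ≤ Real.log (q t' false) - Real.log (q t false) := by
  have hN := NN_pos
  rw [← Real.log_div (q_pos (by linarith) h1' _).ne' (q_pos h0 (by linarith) _).ne']
  have e : q t' false / q t false = (1 + t') / (1 + t) := by
    simp only [q]
    simp only [Bool.false_eq_true, if_false]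
    rw [div_div_div_cancel_right₀ (by positivity)]
  rw [e]
  have h2 : 0 < (1 + t') / (1 + t) := div_pos (by linarith) (by linarith)
  have h3 := Real.one_sub_inv_le_log_of_pos h2
  refine le_trans ?_ h3
  rw [inv_div]
  have h4 : 0 < 1 + t' := by linarith
  rw [le_sub_iff_add_le, ← le_sub_iff_add_le']
  rw [div_le_iff₀ h4]
  nlinarith

theorem log_Rf {t t' : ℝ} (h0 : 0 ≤ t) (h1 : t ≤ 1/2) (h0' : 0 ≤ t') (h1' : t' ≤ 1/2)
    (l : List (Bool × Bool)) (hl : 1 ≤ Rf t l) (hl' : 1 ≤ Rf t' l) :
    Real.log (Rf t l) - Real.log (Rf t' l) ≤ |t - t'| / NN := by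
  rw [← Real.log_div (by linarith) (by linarith)]
  have h2 : 0 < Rf t l / Rf t' l := div_pos (by linarith) (by linarith)
  refine (Real.log_le_sub_one_of_pos h2).trans ?_
  have h3 := Rf_lip h0 h1 h0' h1' l
  have h4 : 0 < Rf t' l := by linarith
  rw [div_sub_one h4.ne', div_le_iff₀ h4]
  have h5 : Rf t l - Rf t' l ≤ |t - t'| / NN := (le_abs_self _).trans h3
  have h6 : 0 ≤ |t - t'| / NN := by have := NN_pos; positivity
  nlinarith

/-- head flag is set -/
def Top (l : List (Bool × Bool)) : Prop := ∃ a l', l = (a, true) :: l'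

theorem Rf_ge_one {t : ℝ} (h0 : 0 ≤ t) (h1 : t ≤ 1/2) {l : List (Bool × Bool)} (hl : Top l) :
    1 ≤ Rf t l := by
  obtain ⟨a, l', rfl⟩ := hl
  simp only [Rf, if_true]
  have := mul_nonneg (q_pos h0 h1 a).le (Rf_nonneg h0 h1 l')
  linarith

theorem muf_pos {t : ℝ} (h0 : 0 ≤ t) (h1 : t ≤ 1/2) {l : List (Bool × Bool)} (hl : Top l) :
    0 < muf t l := mul_pos (Wf_pos h0 h1 l) (lt_of_lt_of_le one_pos (Rf_ge_one h0 h1 hl))

theorem log_muf {t : ℝ} (h0 : 0 ≤ t) (h1 : t ≤ 1/2) {l : List (Bool × Bool)} (hl : Top l) :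
    Real.log (muf t l) = - (cnt true l : ℝ) * Real.log (q t true)
      - (cnt false l : ℝ) * Real.log (q t false) + Real.log (Rf t l) := by
  unfold muf
  rw [Real.log_mul (Wf_pos h0 h1 l).ne' (by have := Rf_ge_one h0 h1 hl; linarith), log_Wf h0 h1]

/-- monotonicity of the log ratio -/
theorem log_ratio {t t' : ℝ} (h0 : 0 ≤ t) (htt : t ≤ t') (h1' : t' ≤ 1/2)
    {l l' : List (Bool × Bool)} (hl : Top l) (hl' : Top l')
    (hi : cnt true l' ≤ cnt true l) (hj : cnt false l ≤ cnt false l')
    (hne : cnt true l ≠ cnt true l' ∨ cnt false l ≠ cnt false l') :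
    (1/2) * (t' - t) ≤ (Real.log (muf t' l) - Real.log (muf t' l'))
      - (Real.log (muf t l) - Real.log (muf t l')) := by
  have h1 : t ≤ 1/2 := by linarith
  have h0' : 0 ≤ t' := by linarith
  rw [log_muf h0 h1 hl, log_muf h0 h1 hl', log_muf h0' h1' hl, log_muf h0' h1' hl']
  have a1 := log_q_true h0 htt h1'
  have a2 := log_q_false h0 htt h1'
  have a3 := log_Rf h0 h1 h0' h1' l (Rf_ge_one h0 h1 hl) (Rf_ge_one h0' h1' hl)
  have a4 := log_Rf h0' h1' h0 h1 l' (Rf_ge_one h0' h1' hl') (Rf_ge_one h0 h1 hl')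
  rw [abs_sub_comm] at a4
  have a5 : |t - t'| / NN ≤ (1/20) * (t' - t) := by
    rw [abs_sub_comm, abs_of_nonneg (by linarith : 0 ≤ t' - t)]
    unfold NN
    push_cast
    rw [div_le_iff₀ (by norm_num)]
    nlinarith
  set X := Real.log (q t true) - Real.log (q t' true) with hX
  set Y := Real.log (q t' false) - Real.log (q t false) with hY
  set i : ℝ := (cnt true l : ℝ) - (cnt true l' : ℝ) with hi'
  set j : ℝ := (cnt false l' : ℝ) - (cnt false l : ℝ) with hj'
  have hi0 : 0 ≤ i := by
    rw [hi']; have : (cnt true l' : ℝ) ≤ cnt true l := by exact_mod_cast hi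
    linarith
  have hj0 : 0 ≤ j := by
    rw [hj']; have : (cnt false l : ℝ) ≤ cnt false l' := by exact_mod_cast hj
    linarith
  have hij : 1 ≤ i ∨ 1 ≤ j := by
    rcases hne with h | h
    · left
      rw [hi']
      have : cnt true l' + 1 ≤ cnt true l := by omega
      have : (cnt true l' : ℝ) + 1 ≤ cnt true l := by exact_mod_cast this
      linarith
    · right
      rw [hj']
      have : cnt false l + 1 ≤ cnt false l' := by omega
      have : (cnt false l : ℝ) + 1 ≤ cnt false l' := by exact_mod_cast this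
      linarith
  have hmain : (2/3) * (t' - t) ≤ i * X + j * Y := by
    have ht : 0 ≤ t' - t := by linarith
    rcases hij with h | h
    · have b1 : (t' - t) ≤ i * X := by nlinarith
      have b2 : 0 ≤ j * Y := mul_nonneg hj0 (by linarith)
      linarith
    · have b1 : (2/3) * (t' - t) ≤ j * Y := by nlinarith
      have b2 : 0 ≤ i * X := mul_nonneg hi0 (by linarith)
      linarith
  have e : ((-(cnt true l : ℝ) * Real.log (q t' true) - (cnt false l : ℝ) * Real.log (q t' false)
        + Real.log (Rf t' l)) - (-(cnt true l' : ℝ) * Real.log (q t' true)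
        - (cnt false l' : ℝ) * Real.log (q t' false) + Real.log (Rf t' l')))
      - ((-(cnt true l : ℝ) * Real.log (q t true) - (cnt false l : ℝ) * Real.log (q t false)
        + Real.log (Rf t l)) - (-(cnt true l' : ℝ) * Real.log (q t true)
        - (cnt false l' : ℝ) * Real.log (q t false) + Real.log (Rf t l')))
      = (i * X + j * Y) - (Real.log (Rf t l) - Real.log (Rf t' l))
        - (Real.log (Rf t' l') - Real.log (Rf t l')) := by
    rw [hX, hY, hi', hj']; ring
  rw [e]
  linarith

end Pool.Agent.Work.MPa69bcc
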