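import Pool.Agent.Work.MP_a69bcc_pr.Seq

set_option autoImplicit false

namespace Pool.Agent.Work.MPa69bcc

open Finset

/-- convolution -/
noncomputable def cv (a c : ℕ → ℝ) (n : ℕ) : ℝ := ∑ m ∈ range (n+1), c m * a (n-m)

theorem cv_comm (a c : ℕ → ℝ) (n : ℕ) : cv a c n = cv c a n := by
  unfold cv
  rw [← sum_range_reflect]
  refine sum_congr rfl (fun m hm => ?_)
  have := mem_range.1 hm
  rw [show n + 1 - 1 - m = n - m by omega, show n - (n - m) = m by omega]
  ring

theorem cv_nonneg {a c : ℕ → ℝ} (ha : ∀ n, 0 ≤ a n) (hc : ∀ n, 0 ≤ c n) (n : ℕ) : 0 ≤ cv a c n :=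
  sum_nonneg (fun m _ => mul_nonneg (hc m) (ha _))

section one

variable {L : ℕ} {P : ℝ} {r a Sa c : ℕ → ℝ}

theorem conv_r (h : WT L P r a Sa) (c : ℕ → ℝ) (t : ℕ) :
    ∑ b ∈ range (L+1), r b * cv a c (t+b) = ∑ m ∈ range (t+1), c m * Sa (t-m) := by
  have h1 : ∀ b ∈ range (L+1), r b * cv a c (t+b)
      = ∑ m ∈ range (t+1), c m * (r b * a ((t-m)+b)) := by
    intro b hb
    have hb' : b ≤ L := by have := mem_range.1 hb; omega
    unfold cv
    rw [show t + b + 1 = (t + 1) + b by ring, sum_range_add]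
    have h2 : ∑ i ∈ range b, c (t + 1 + i) * a (t + b - (t + 1 + i)) = 0 := by
      refine sum_eq_zero (fun i hi => ?_)
      have hi' := mem_range.1 hi
      rw [h.f_zero (t + b - (t + 1 + i)) (by omega), mul_zero]
    rw [h2, add_zero, mul_sum]
    refine sum_congr rfl (fun m hm => ?_)
    have hm' := mem_range.1 hm
    rw [show t + b - m = (t - m) + b by omega]
    ring
  rw [sum_congr rfl h1, sum_comm]
  refine sum_congr rfl (fun m _ => ?_)
  rw [← mul_sum, ← h.ident]

theorem part_sum (h : WT L P r a Sa) {c Sc : ℕ → ℝ}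
    (hc : ∀ n, Sc n = 1 - ∑ m ∈ range (n+1), c m) (t : ℕ) :
    ∑ m ∈ range (t+1), c m * Sa (t-m) = (1 - Sc t) - ∑ n ∈ range (t+1), cv a c n := by
  have key : ∀ t, ∑ m ∈ range (t+1), c m * (∑ i ∈ range (t-m+1), a i)
      = ∑ n ∈ range (t+1), cv a c n := by
    intro t
    induction t with
    | zero => simp [cv]
    | succ t ih =>
      rw [sum_range_succ, sum_range_succ (fun n => cv a c n), ← ih]
      have h1 : ∀ m ∈ range (t+1), c m * (∑ i ∈ range (t+1-m+1), a i)
          = c m * (∑ i ∈ range (t-m+1), a i) + c m * a (t+1-m) := by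
        intro m hm
        have hm' := mem_range.1 hm
        rw [show t + 1 - m + 1 = (t - m + 1) + 1 by omega, sum_range_succ,
          show t - m + 1 = t + 1 - m by omega]
        ring
      rw [sum_congr rfl h1, sum_add_distrib]
      have e : cv a c (t+1) = ∑ m ∈ range (t+1), c m * a (t+1-m) + c (t+1) * a 0 := by
        unfold cv; rw [sum_range_succ]; simp
      rw [e]
      have e2 : ∑ i ∈ range (t + 1 - (t + 1) + 1), a i = a 0 := by simp
      rw [e2]
      ring
  rw [← key, hc, show 1 - (1 - ∑ m ∈ range (t+1), c m) = ∑ m ∈ range (t+1), c m by ring,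
    ← sum_sub_distrib]
  refine sum_congr rfl (fun m _ => ?_)
  rw [h.S_eq]; ring

end one

section two

variable {L L' : ℕ} {P P' : ℝ} {r r' a c Sa Sc : ℕ → ℝ}

theorem sum_extend (h : WT L P r a Sa) {M : ℕ} (hM : L ≤ M) (F : ℕ → ℝ) :
    ∑ b ∈ range (M+1), r b * F b = ∑ b ∈ range (L+1), r b * F b := by
  symm
  refine sum_subset (fun x hx => ?_) (fun x hx hx' => ?_)
  · rw [mem_range] at *; omega
  · rw [mem_range] at *
    rw [h.r_zero x (by omega), zero_mul]

/-- the fundamental difference identity -/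
theorem diff_ident (hX : WT L P r a Sa) (hY : WT L' P' r' c Sc) {M : ℕ} (h1 : L ≤ M) (h2 : L' ≤ M)
    (t : ℕ) : Sc t - Sa t = ∑ b ∈ range (M+1), (r' b - r b) * cv a c (t+b) := by
  have e1 : ∑ b ∈ range (M+1), r b * cv a c (t+b)
      = (1 - Sc t) - ∑ n ∈ range (t+1), cv a c n := by
    rw [sum_extend hX h1, conv_r hX, part_sum hX hY.S_eq]
  have e2 : ∑ b ∈ range (M+1), r' b * cv a c (t+b)
      = (1 - Sa t) - ∑ n ∈ range (t+1), cv a c n := by
    have : ∀ n, cv a c n = cv c a n := cv_comm a c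
    simp only [this]
    rw [sum_extend hY h2, conv_r hY, part_sum hY hX.S_eq]
  simp only [sub_mul, sum_sub_distrib]
  rw [e1, e2]; ring

/-- weights -/
def wt (a : ℕ → ℝ) (t : ℕ) : ℝ := a t + a (t+1)

/-- the doubled race probability -/
noncomputable def R2 (a Sc : ℕ → ℝ) : ℝ := ∑' t, wt a t * Sc t

/-- kernel -/
noncomputable def K (a c : ℕ → ℝ) (b : ℕ) : ℝ := ∑' t, wt a t * cv a c (t+b)

theorem wt_nonneg (hX : WT L P r a Sa) (t : ℕ) : 0 ≤ wt a t :=
  add_nonneg (hX.f_nonneg _) (hX.f_nonneg _)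

theorem wt_le (hX : WT L P r a Sa) (t : ℕ) : wt a t ≤ 2 * P := by
  unfold wt; linarith [hX.f_le t, hX.f_le (t+1)]

theorem summable_wt (hX : WT L P r a Sa) : Summable (wt a) :=
  hX.summable_f.add (hX.summable_shift 1)

theorem tsum_wt (hX : WT L P r a Sa) : ∑' t, wt a t = 2 := by
  unfold wt
  rw [hX.summable_f.tsum_add (hX.summable_shift 1), hX.tsum_f, hX.tsum_shift 1 hX.Lpos]
  norm_num

theorem cv_le_one (hX : WT L P r a Sa) (hY : WT L' P' r' c Sc) (n : ℕ) : cv a c n ≤ 1 := by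
  unfold cv
  calc ∑ m ∈ range (n+1), c m * a (n-m) ≤ ∑ m ∈ range (n+1), c m * 1 := by
        refine sum_le_sum (fun m _ => mul_le_mul_of_nonneg_left ?_ (hY.f_nonneg m))
        have h1 := hX.sum_le_one (n - m + 1)
        rw [sum_range_succ] at h1
        have : 0 ≤ ∑ i ∈ range (n-m), a i := sum_nonneg (fun i _ => hX.f_nonneg i)
        linarith
    _ ≤ 1 := by simpa using hY.sum_le_one (n+1)

theorem summable_wt_mul (hX : WT L P r a Sa) {F : ℕ → ℝ} {B : ℝ} (hF0 : ∀ t, 0 ≤ F t)
    (hF : ∀ t, F t ≤ B) : Summable (fun t => wt a t * F t) := by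
  refine Summable.of_nonneg_of_le (fun t => mul_nonneg (wt_nonneg hX t) (hF0 t)) (fun t => ?_)
    ((summable_wt hX).mul_right B)
  exact mul_le_mul_of_nonneg_left (hF t) (wt_nonneg hX t)

theorem summable_K (hX : WT L P r a Sa) (hY : WT L' P' r' c Sc) (b : ℕ) :
    Summable (fun t => wt a t * cv a c (t+b)) :=
  summable_wt_mul hX (fun _ => cv_nonneg hX.f_nonneg hY.f_nonneg _) (fun _ => cv_le_one hX hY _)

theorem R2_self (hX : WT L P r a Sa) : R2 a Sa = 1 := by
  have h1 : ∀ n, ∑ t ∈ range (n+1), wt a t * Sa t = 1 - Sa n * Sa (n+1) := by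
    intro n
    induction n with
    | zero =>
      simp only [zero_add, range_one, sum_singleton, wt, hX.f_zero0]
      have := hX.S_succ 0
      rw [hX.S_zero] at this
      rw [hX.S_zero]
      simp only [zero_add] at this ⊢
      linarith
    | succ n ih =>
      rw [sum_range_succ, ih]
      unfold wt
      have e1 := hX.S_succ n
      have e2 := hX.S_succ (n+1)
      have : a (n+1) = Sa n - Sa (n+1) := by linarith
      rw [this]
      have : a (n+1+1) = Sa (n+1) - Sa (n+1+1) := by linarith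
      rw [this]
      ring
  have hs : Summable (fun t => wt a t * Sa t) :=
    summable_wt_mul hX hX.S_nonneg hX.S_le_one
  have h2 := (hs.hasSum_iff_tendsto_nat (m := 1)).2 ?_
  · exact h2.tsum_eq
  · have h3 : Filter.Tendsto (fun n => 1 - Sa n * Sa (n+1)) Filter.atTop (nhds (1 - 0 * 0)) := by
      refine Filter.Tendsto.const_sub 1 (Filter.Tendsto.mul hX.S_tendsto ?_)
      exact hX.S_tendsto.comp (Filter.tendsto_add_atTop_nat 1)
    rw [mul_zero, sub_zero] at h3
    rw [← funext h1] at h3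
    exact (Filter.tendsto_add_atTop_iff_nat 1).1 h3

/-- the exact formula for the advantage -/
theorem R2_formula (hX : WT L P r a Sa) (hY : WT L' P' r' c Sc) {M : ℕ} (h1 : L ≤ M)
    (h2 : L' ≤ M) : R2 a Sc - 1 = ∑ b ∈ range (M+1), (r' b - r b) * K a c b := by
  have e1 : R2 a Sc - 1 = ∑' t, wt a t * (Sc t - Sa t) := by
    rw [← R2_self hX]
    unfold R2
    rw [← Summable.tsum_sub (summable_wt_mul hX hY.S_nonneg hY.S_le_one)
      (summable_wt_mul hX hX.S_nonneg hX.S_le_one)]
    refine tsum_congr (fun t => ?_)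
    ring
  rw [e1]
  have e2 : ∀ t, wt a t * (Sc t - Sa t)
      = ∑ b ∈ range (M+1), (r' b - r b) * (wt a t * cv a c (t+b)) := by
    intro t
    rw [diff_ident hX hY h1 h2, mul_sum]
    refine sum_congr rfl (fun b _ => ?_)
    ring
  rw [tsum_congr e2, Summable.tsum_finsetSum (fun b _ => (summable_K hX hY b).mul_left _)]
  refine sum_congr rfl (fun b _ => ?_)
  rw [tsum_mul_left]
  rfl

/-- far case bound -/
theorem R2_far (hX : WT L P r a Sa) (hY : WT L' P' r' c Sc) :
    R2 a Sc ≤ 2 * P * WT.mu L' r' := by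
  unfold R2
  have h1 : ∀ t, wt a t * Sc t ≤ (2 * P) * Sc t := fun t =>
    mul_le_mul_of_nonneg_right (wt_le hX t) (hY.S_nonneg t)
  refine ((summable_wt_mul hX hY.S_nonneg hY.S_le_one).tsum_le_tsum h1
    (hY.summable_S.mul_left _)).trans ?_
  rw [tsum_mul_left, hY.hasSum_S.tsum_eq]

theorem cv_succ_sub (hY : WT L' P' r' c Sc) (n : ℕ) :
    cv c a (n+1) - cv c a n = ∑ i ∈ range (n+1), a i * (c (n-i+1) - c (n-i)) := by
  unfold cv
  rw [sum_range_succ]
  simp only [Nat.sub_self, hY.f_zero0, mul_zero, add_zero]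
  rw [← sum_sub_distrib]
  refine sum_congr rfl (fun i hi => ?_)
  have := mem_range.1 hi
  rw [show n + 1 - i = n - i + 1 by omega]
  ring

theorem tv_cv (hX : WT L P r a Sa) (hY : WT L' P' r' c Sc) :
    Summable (fun n => |cv a c (n+1) - cv a c n|) ∧
      ∑' n, |cv a c (n+1) - cv a c n| ≤ (5/2) * P' := by
  have hA : Summable (fun n => ‖a n‖) := hX.summable_f.norm
  have hB : Summable (fun n => ‖|c (n+1) - c n|‖) := hY.summable_tv.norm
  have h1 := summable_norm_sum_mul_antidiagonal_of_summable_norm hA hB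
  have h1' : Summable (fun n => ∑ kl ∈ antidiagonal n, a kl.1 * |c (kl.2+1) - c kl.2|) :=
    h1.of_norm
  have h2 := tsum_mul_tsum_eq_tsum_sum_antidiagonal_of_summable_norm hA hB
  have h3 : ∀ n, |cv a c (n+1) - cv a c n| ≤
      ∑ kl ∈ antidiagonal n, a kl.1 * |c (kl.2+1) - c kl.2| := by
    intro n
    rw [cv_comm, cv_comm a c n, cv_succ_sub hY,
      Finset.Nat.sum_antidiagonal_eq_sum_range_succ (fun i j => a i * |c (j+1) - c j|)]
    refine (abs_sum_le_sum_abs _ _).trans (sum_le_sum (fun i _ => ?_))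
    rw [abs_mul, abs_of_nonneg (hX.f_nonneg i)]
  have hs : Summable (fun n => |cv a c (n+1) - cv a c n|) :=
    Summable.of_nonneg_of_le (fun _ => abs_nonneg _) h3 h1'
  refine ⟨hs, ?_⟩
  refine (hs.tsum_le_tsum h3 h1').trans ?_
  rw [← h2, hX.tsum_f, one_mul]
  exact hY.tv_le

theorem K_succ (hX : WT L P r a Sa) (hY : WT L' P' r' c Sc) (b : ℕ) :
    |K a c (b+1) - K a c b| ≤ 5 * P * P' := by
  obtain ⟨hs, ht⟩ := tv_cv hX hY
  unfold K
  rw [← Summable.tsum_sub (summable_K hX hY (b+1)) (summable_K hX hY b)]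
  have hsb : Summable (fun t => |cv a c (t+b+1) - cv a c (t+b)|) :=
    (summable_nat_add_iff (f := fun n => |cv a c (n+1) - cv a c n|) b).2 hs
  have h1 : ∀ t, ‖wt a t * cv a c (t+(b+1)) - wt a t * cv a c (t+b)‖
      ≤ (2 * P) * |cv a c (t+b+1) - cv a c (t+b)| := by
    intro t
    rw [← mul_sub, norm_mul, Real.norm_eq_abs, Real.norm_eq_abs, abs_of_nonneg (wt_nonneg hX t),
      show t + (b+1) = t + b + 1 by ring]
    exact mul_le_mul_of_nonneg_right (wt_le hX t) (abs_nonneg _)
  have h2 := tsum_of_norm_bounded ((hsb.mul_left (2*P)).hasSum) h1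
  rw [Real.norm_eq_abs] at h2
  refine h2.trans ?_
  rw [tsum_mul_left]
  have h3 : ∑' t, |cv a c (t+b+1) - cv a c (t+b)| ≤ (5/2) * P' := by
    have h4 := hs.sum_add_tsum_nat_add b
    have hn : 0 ≤ ∑ i ∈ range b, |cv a c (i+1) - cv a c i| := sum_nonneg (fun _ _ => abs_nonneg _)
    linarith
  have := hX.Ppos
  nlinarith

theorem K_var (hX : WT L P r a Sa) (hY : WT L' P' r' c Sc) (b : ℕ) :
    |K a c b - K a c 0| ≤ b * (5 * P * P') := by
  induction b with
  | zero => simp
  | succ b ih =>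
    have := K_succ hX hY b
    have h2 : K a c (b+1) - K a c 0 = (K a c (b+1) - K a c b) + (K a c b - K a c 0) := by ring
    rw [h2]
    refine (abs_add_le _ _).trans ?_
    push_cast
    linarith

/-- lower bound for the kernel -/
theorem K_zero_ge (hX : WT L P r a Sa) (hY : WT L' P' r' c Sc) (T : ℕ) (hT1 : L ≤ T) (hT2 : L' ≤ T)
    (h4 : (4 * T : ℕ) * P ≤ 1/4) (h4' : (4 * T : ℕ) * P' ≤ 1/4) :
    (T : ℝ)^2 * P^2 * P' / 8 ≤ K a c 0 := by
  have hcv : ∀ t, 3 * T ≤ t → t < 4 * T → (T : ℝ) * (P * P' / 4) ≤ cv a c t := by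
    intro t ht1 ht2
    unfold cv
    have hsub : Finset.Ico T (2*T) ⊆ range (t+1) := by
      intro x hx
      rw [mem_Ico] at hx
      rw [mem_range]; omega
    calc (T : ℝ) * (P * P' / 4) = ∑ _m ∈ Finset.Ico T (2*T), (P * P' / 4) := by
          rw [sum_const, Nat.card_Ico, nsmul_eq_mul, show 2 * T - T = T by omega]
      _ ≤ ∑ m ∈ Finset.Ico T (2*T), c m * a (t-m) := by
          refine sum_le_sum (fun m hm => ?_)
          rw [mem_Ico] at hm
          have b1 : P' / 2 ≤ c m := by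
            refine hY.f_ge m (by omega) ?_
            refine le_trans ?_ h4'
            refine mul_le_mul_of_nonneg_right ?_ hY.Ppos.le
            exact_mod_cast (show m ≤ 4 * T by omega)
          have b2 : P / 2 ≤ a (t-m) := by
            refine hX.f_ge (t-m) (by omega) ?_
            refine le_trans ?_ h4
            refine mul_le_mul_of_nonneg_right ?_ hX.Ppos.le
            exact_mod_cast (show t - m ≤ 4 * T by omega)
          have p1 := hX.Ppos
          have p2 := hY.Ppos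
          calc P * P' / 4 = (P'/2) * (P/2) := by ring
            _ ≤ c m * a (t-m) := mul_le_mul b1 b2 (by positivity) (by linarith)
      _ ≤ ∑ m ∈ range (t+1), c m * a (t-m) :=
          sum_le_sum_of_subset_of_nonneg hsub
            (fun m _ _ => mul_nonneg (hY.f_nonneg _) (hX.f_nonneg _))
  have hnn : ∀ t, 0 ≤ wt a t * cv a c (t+0) := fun t =>
    mul_nonneg (wt_nonneg hX t) (cv_nonneg hX.f_nonneg hY.f_nonneg _)
  have p1 := hX.Ppos
  have p2 := hY.Ppos
  calc (T : ℝ)^2 * P^2 * P' / 8 = ∑ _t ∈ Finset.Ico (3*T) (4*T), (P/2) * ((T : ℝ) * (P * P' / 4)) := by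
        rw [sum_const, Nat.card_Ico, nsmul_eq_mul, show 4 * T - 3 * T = T by omega]
        ring
    _ ≤ ∑ t ∈ Finset.Ico (3*T) (4*T), wt a t * cv a c (t+0) := by
        refine sum_le_sum (fun t ht => ?_)
        rw [mem_Ico] at ht
        have b1 : P / 2 ≤ a t := by
          refine hX.f_ge t (by omega) ?_
          refine le_trans ?_ h4
          refine mul_le_mul_of_nonneg_right ?_ hX.Ppos.le
          exact_mod_cast (show t ≤ 4 * T by omega)
        have b2 : P / 2 ≤ wt a t := by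
          unfold wt; linarith [hX.f_nonneg (t+1)]
        rw [add_zero]
        exact mul_le_mul b2 (hcv t ht.1 ht.2) (by positivity) (by linarith)
    _ ≤ K a c 0 := by
        unfold K
        exact (summable_K hX hY 0).sum_le_tsum _ (fun t _ => hnn t)

/-- sign lemma, near case -/
theorem R2_near (hX : WT L P r a Sa) (hY : WT L' P' r' c Sc) {M : ℕ} (h1 : L ≤ M)
    (h2 : L' ≤ M) {κ : ℝ} (hκ : P' ≤ κ * K a c 0) (hK : 0 ≤ K a c 0)
    (hgap : WT.mu L' r' + 5 * κ * M * P * ∑ b ∈ range (M+1), |r' b - r b| ≤ WT.mu L r) :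
    R2 a Sc ≤ 1 := by
  have e := R2_formula hX hY h1 h2
  have hmu : ∑ b ∈ range (M+1), (r' b - r b) * K a c 0
      = (WT.mu L' r' - WT.mu L r) * K a c 0 := by
    rw [← sum_mul]
    congr 1
    rw [sum_sub_distrib]
    have e1 := sum_extend hY h2 (fun _ => (1:ℝ))
    have e2 := sum_extend hX h1 (fun _ => (1:ℝ))
    simp only [mul_one] at e1 e2
    rw [e1, e2]
    rfl
  have hb : ∑ b ∈ range (M+1), (r' b - r b) * (K a c b - K a c 0)
      ≤ ∑ b ∈ range (M+1), |r' b - r b| * (M * (5 * P * P')) := by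
    refine sum_le_sum (fun b hb => ?_)
    refine (le_abs_self _).trans ?_
    rw [abs_mul]
    refine mul_le_mul_of_nonneg_left ?_ (abs_nonneg _)
    refine (K_var hX hY b).trans ?_
    have : (b : ℝ) ≤ M := by
      have := mem_range.1 hb
      exact_mod_cast (show b ≤ M by omega)
    have p1 := hX.Ppos
    have p2 := hY.Ppos
    gcongr
  have hsplit : ∑ b ∈ range (M+1), (r' b - r b) * K a c b
      = ∑ b ∈ range (M+1), (r' b - r b) * K a c 0
        + ∑ b ∈ range (M+1), (r' b - r b) * (K a c b - K a c 0) := by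
    rw [← sum_add_distrib]
    refine sum_congr rfl (fun b _ => ?_)
    ring
  rw [← sum_mul] at hb
  set Df := ∑ b ∈ range (M+1), |r' b - r b| with hDf
  have hDf0 : 0 ≤ Df := sum_nonneg (fun _ _ => abs_nonneg _)
  have p1 := hX.Ppos
  have hM : (0:ℝ) ≤ M := Nat.cast_nonneg _
  have h5 : Df * (M * (5 * P * P')) ≤ Df * (M * (5 * P * (κ * K a c 0))) := by
    gcongr
  have h6 : (WT.mu L' r' - WT.mu L r) * K a c 0 + Df * (M * (5 * P * (κ * K a c 0))) ≤ 0 := by
    have : (WT.mu L' r' - WT.mu L r) * K a c 0 + Df * (M * (5 * P * (κ * K a c 0)))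
        = (WT.mu L' r' + 5 * κ * M * P * Df - WT.mu L r) * K a c 0 := by ring
    rw [this]
    exact mul_nonpos_of_nonpos_of_nonneg (by linarith) hK
  rw [hsplit, hmu] at e
  linarith

end two

end Pool.Agent.Work.MPa69bcc
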