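import Pool.Agent.Work.MP_a69bcc_pr.Defs

set_option autoImplicit false

namespace Pool.Agent.Work.MPa69bcc

open Finset MeasureTheory ProbabilityTheory

variable {s : ℕ}

theorem letterLaw_prob {p : Fin s → ℝ} (hp : ∀ i, 0 < p i) (hsum : ∑ i, p i = 1) :
    IsProbabilityMeasure (letterLaw p) := by
  constructor
  unfold letterLaw
  simp only [Measure.coe_finsetSum, Finset.sum_apply, Measure.smul_apply, measure_univ,
    smul_eq_mul, mul_one]
  rw [← ENNReal.ofReal_sum_of_nonneg (fun i _ => (hp i).le), hsum, ENNReal.ofReal_one]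

theorem letterLaw_singleton {p : Fin s → ℝ} (a : Fin s) :
    letterLaw p {a} = ENNReal.ofReal (p a) := by
  unfold letterLaw
  simp only [Measure.coe_finsetSum, Finset.sum_apply, Measure.smul_apply, smul_eq_mul]
  rw [Finset.sum_eq_single a]
  · simp
  · intro b _ hb
    simp [hb]
  · simp

/-- a set of sequences that depends only on the first `n` coordinates -/
def DepOn (E : Set (ℕ → Fin s)) (n : ℕ) : Prop :=
  ∀ x y : ℕ → Fin s, (∀ i, i < n → x i = y i) → (x ∈ E ↔ y ∈ E)

theorem DepOn.preimage {E : Set (ℕ → Fin s)} {n : ℕ} (h : DepOn E n) :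
    E = (fun (x : ℕ → Fin s) (i : (Finset.range n : Finset ℕ)) => x i) ⁻¹'
      {v | ∃ x ∈ E, ∀ i : (Finset.range n : Finset ℕ), x i = v i} := by
  ext x
  constructor
  · intro hx
    exact ⟨x, hx, fun i => rfl⟩
  · rintro ⟨y, hy, hxy⟩
    refine (h y x ?_).1 hy
    intro i hi
    exact hxy ⟨i, Finset.mem_range.2 hi⟩

theorem DepOn.measurable {E : Set (ℕ → Fin s)} {n : ℕ} (h : DepOn E n) : MeasurableSet E := by
  rw [h.preimage]
  apply measurableSet_preimage
  · fun_prop
  · exact MeasurableSet.of_discrete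

theorem DepOn.mono {E : Set (ℕ → Fin s)} {n m : ℕ} (h : DepOn E n) (hnm : n ≤ m) : DepOn E m :=
  fun x y hxy => h x y (fun i hi => hxy i (by omega))

section prob

variable {p : Fin s → ℝ} (hp : ∀ i, 0 < p i) (hsum : ∑ i, p i = 1)
include hp hsum

theorem sourceLaw_prob : IsProbabilityMeasure (sourceLaw p) := by
  have := letterLaw_prob hp hsum
  unfold sourceLaw
  infer_instance

theorem indep_one {E : Set (ℕ → Fin s)} {n : ℕ} (h : DepOn E n) (a : Fin s) :
    (sourceLaw p).real (E ∩ {x | x n = a}) = (sourceLaw p).real E * p a := by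
  have := letterLaw_prob hp hsum
  have := sourceLaw_prob hp hsum
  have hind : iIndepFun (fun (i : ℕ) (x : ℕ → Fin s) => x i) (sourceLaw p) := by
    unfold sourceLaw
    exact iIndepFun_infinitePi (P := fun _ : ℕ => letterLaw p) (X := fun _ x => x)
      (fun _ => measurable_id)
  have h2 := hind.indepFun_finset (Finset.range n) {n} (by simp) (fun i => measurable_pi_apply i)
  have h3 := h2.measure_inter_preimage_eq_mul
    {v | ∃ x ∈ E, ∀ i : (Finset.range n : Finset ℕ), x i = v i}
    {v | v ⟨n, Finset.mem_singleton_self n⟩ = a} MeasurableSet.of_discrete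
    MeasurableSet.of_discrete
  have e1 : (fun (x : ℕ → Fin s) (i : (Finset.range n : Finset ℕ)) => x i) ⁻¹'
      {v | ∃ x ∈ E, ∀ i : (Finset.range n : Finset ℕ), x i = v i} = E := h.preimage.symm
  have e2 : (fun (x : ℕ → Fin s) (i : (({n} : Finset ℕ))) => x i) ⁻¹'
      {v | v ⟨n, Finset.mem_singleton_self n⟩ = a} = {x | x n = a} := rfl
  rw [e1, e2] at h3
  have h4 : sourceLaw p {x | x n = a} = ENNReal.ofReal (p a) := by
    have h5 := (measurePreserving_eval_infinitePi (fun _ : ℕ => letterLaw p) n).measure_preimage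
      (s := {a}) (measurableSet_singleton a).nullMeasurableSet
    rw [letterLaw_singleton] at h5
    exact h5
  rw [h4] at h3
  unfold Measure.real
  rw [h3, ENNReal.toReal_mul, ENNReal.toReal_ofReal (hp a).le]

theorem indep_word {E : Set (ℕ → Fin s)} {n : ℕ} (h : DepOn E n) (w : ℕ → Fin s) (k : ℕ) :
    (sourceLaw p).real (E ∩ {x | ∀ i, i < k → x (n+i) = w i})
      = (sourceLaw p).real E * ∏ i ∈ range k, p (w i) := by
  induction k with
  | zero => simp
  | succ k ih =>
    have e : E ∩ {x | ∀ i, i < k + 1 → x (n+i) = w i}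
        = (E ∩ {x | ∀ i, i < k → x (n+i) = w i}) ∩ {x | x (n+k) = w k} := by
      ext x
      simp only [Set.mem_inter_iff, Set.mem_ofPred_eq]
      constructor
      · rintro ⟨h1, h2⟩
        exact ⟨⟨h1, fun i hi => h2 i (by omega)⟩, h2 k (by omega)⟩
      · rintro ⟨⟨h1, h2⟩, h3⟩
        refine ⟨h1, fun i hi => ?_⟩
        rcases Nat.lt_or_eq_of_le (Nat.le_of_lt_succ hi) with h4 | h4
        · exact h2 i h4
        · rw [h4]; exact h3
    have hd : DepOn (E ∩ {x | ∀ i, i < k → x (n+i) = w i}) (n+k) := by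
      intro x y hxy
      simp only [Set.mem_inter_iff, Set.mem_ofPred_eq]
      have h1 := h x y (fun i hi => hxy i (by omega))
      constructor
      · rintro ⟨h2, h3⟩
        exact ⟨h1.1 h2, fun i hi => by rw [← hxy (n+i) (by omega)]; exact h3 i hi⟩
      · rintro ⟨h2, h3⟩
        exact ⟨h1.2 h2, fun i hi => by rw [hxy (n+i) (by omega)]; exact h3 i hi⟩
    rw [e, indep_one hp hsum hd, ih, prod_range_succ]
    ring

end prob

/-- completion at time `n` of the word `a 0 ... a (L-1)` -/
def Occ (L : ℕ) (a : ℕ → Fin s) (x : ℕ → Fin s) (n : ℕ) : Prop :=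
  L ≤ n ∧ ∀ i, i < L → x (n - L + i) = a i

/-- not completed up to time `n` -/
def TT (L : ℕ) (a : ℕ → Fin s) (n : ℕ) : Set (ℕ → Fin s) := {x | ∀ m, m ≤ n → ¬ Occ L a x m}

/-- first completion at time `n` -/
def FF (L : ℕ) (a : ℕ → Fin s) (n : ℕ) : Set (ℕ → Fin s) :=
  {x | Occ L a x n ∧ ∀ m, m < n → ¬ Occ L a x m}

theorem Occ_congr {L : ℕ} {a x y : ℕ → Fin s} {n m : ℕ} (hxy : ∀ i, i < n → x i = y i)
    (hm : m ≤ n) (hL : 1 ≤ L) : Occ L a x m ↔ Occ L a y m := by
  unfold Occ
  constructor
  · rintro ⟨h1, h2⟩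
    exact ⟨h1, fun i hi => by rw [← hxy _ (by omega)]; exact h2 i hi⟩
  · rintro ⟨h1, h2⟩
    exact ⟨h1, fun i hi => by rw [hxy _ (by omega)]; exact h2 i hi⟩

theorem TT_dep (L : ℕ) (a : ℕ → Fin s) (n : ℕ) (hL : 1 ≤ L) : DepOn (TT L a n) n := by
  intro x y hxy
  unfold TT
  simp only [Set.mem_ofPred_eq]
  constructor
  · intro h m hm hc
    exact h m hm ((Occ_congr hxy hm hL).2 hc)
  · intro h m hm hc
    exact h m hm ((Occ_congr hxy hm hL).1 hc)

theorem FF_dep (L : ℕ) (a : ℕ → Fin s) (n : ℕ) (hL : 1 ≤ L) : DepOn (FF L a n) n := by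
  intro x y hxy
  unfold FF
  simp only [Set.mem_ofPred_eq]
  rw [Occ_congr hxy le_rfl hL]
  constructor
  · rintro ⟨h1, h⟩
    exact ⟨h1, fun m hm hc => h m hm ((Occ_congr hxy hm.le hL).2 hc)⟩
  · rintro ⟨h1, h⟩
    exact ⟨h1, fun m hm hc => h m hm ((Occ_congr hxy hm.le hL).1 hc)⟩

/-- border condition -/
def Bord (L : ℕ) (a : ℕ → Fin s) (b : ℕ) : Prop := 1 ≤ b ∧ b ≤ L ∧ ∀ j, j < b → a (L - b + j) = a j

open Classical in
/-- border weights -/
noncomputable def rw' (p : Fin s → ℝ) (L : ℕ) (a : ℕ → Fin s) (b : ℕ) : ℝ :=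
  if Bord L a b then 1 / ∏ i ∈ range b, p (a i) else 0

noncomputable def ff (p : Fin s → ℝ) (L : ℕ) (a : ℕ → Fin s) (n : ℕ) : ℝ :=
  (sourceLaw p).real (FF L a n)

noncomputable def SS (p : Fin s → ℝ) (L : ℕ) (a : ℕ → Fin s) (n : ℕ) : ℝ :=
  (sourceLaw p).real (TT L a n)

theorem FF_empty {L : ℕ} {a : ℕ → Fin s} {n : ℕ} (hn : n < L) : FF L a n = ∅ := by
  ext x
  simp only [FF, Occ, Set.mem_ofPred_eq, Set.mem_empty_iff_false, iff_false]
  rintro ⟨⟨h1, _⟩, _⟩
  omega

section prob2

variable {p : Fin s → ℝ} (hp : ∀ i, 0 < p i) (hsum : ∑ i, p i = 1)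
include hp hsum

theorem SS_eq {L : ℕ} (hL : 1 ≤ L) (a : ℕ → Fin s) (n : ℕ) :
    SS p L a n = 1 - ∑ m ∈ range (n+1), ff p L a m := by
  have := sourceLaw_prob hp hsum
  induction n with
  | zero =>
    have h1 : TT L a 0 = Set.univ := by
      ext x
      simp only [TT, Occ, Set.mem_ofPred_eq, Set.mem_univ, iff_true]
      rintro m hm ⟨h2, _⟩
      omega
    simp only [zero_add, range_one, sum_singleton]
    unfold SS ff
    rw [h1, FF_empty (by omega)]
    simp
  | succ n ih =>
    have h1 : TT L a n = TT L a (n+1) ∪ FF L a (n+1) := by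
      ext x
      simp only [TT, FF, Set.mem_union, Set.mem_ofPred_eq]
      constructor
      · intro h
        by_cases hc : Occ L a x (n+1)
        · right; exact ⟨hc, fun m hm => h m (by omega)⟩
        · left
          intro m hm
          rcases Nat.lt_or_eq_of_le hm with h2 | h2
          · exact h m (by omega)
          · rw [h2]; exact hc
      · rintro (h | h)
        · intro m hm; exact h m (by omega)
        · intro m hm; exact h.2 m (by omega)
    have h2 : Disjoint (TT L a (n+1)) (FF L a (n+1)) := by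
      rw [Set.disjoint_left]
      intro x hx hx'
      exact hx (n+1) le_rfl hx'.1
    have h3 : SS p L a n = SS p L a (n+1) + ff p L a (n+1) := by
      unfold SS ff
      rw [h1, measureReal_union h2 (FF_dep L a (n+1) hL).measurable]
    rw [sum_range_succ]
    linarith

open Classical in
theorem ident0 {L : ℕ} (hL : 1 ≤ L) (a : ℕ → Fin s) (n : ℕ) :
    SS p L a n * ∏ i ∈ range L, p (a i)
      = ∑ b ∈ range (L+1), (if Bord L a b then
          ff p L a (n+b) * ∏ i ∈ range (L-b), p (a (b+i)) else 0) := by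
  classical
  have := sourceLaw_prob hp hsum
  set G : Set (ℕ → Fin s) := TT L a n ∩ {x | ∀ i, i < L → x (n+i) = a i} with hG
  have hG1 : (sourceLaw p).real G = SS p L a n * ∏ i ∈ range L, p (a i) :=
    indep_word hp hsum (TT_dep L a n hL) a L
  rw [← hG1]
  -- decomposition of G
  have hdec : G = ⋃ b ∈ Finset.range (L+1), (G ∩ FF L a (n+b)) := by
    ext x
    simp only [Set.mem_iUnion, exists_prop]
    constructor
    · intro hx
      have hocc : Occ L a x (n+L) := by
        refine ⟨by omega, fun i hi => ?_⟩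
        rw [show n + L - L + i = n + i by omega]
        exact hx.2 i hi
      have hex : ∃ m, Occ L a x m := ⟨_, hocc⟩
      have hm1 := Nat.find_spec hex
      have hm2 : Nat.find hex ≤ n + L := Nat.find_min' hex hocc
      have hm3 : n < Nat.find hex := by
        by_contra h
        exact hx.1 _ (by omega) hm1
      refine ⟨Nat.find hex - n, Finset.mem_range.2 (by omega), hx, ?_⟩
      rw [show n + (Nat.find hex - n) = Nat.find hex by omega]
      exact ⟨hm1, fun m hm => Nat.find_min hex hm⟩
    · rintro ⟨b, _, hx, _⟩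
      exact hx
  have hmG : MeasurableSet G := by
    refine DepOn.measurable (n := n + L) ?_
    intro x y hxy
    simp only [hG, Set.mem_inter_iff, Set.mem_ofPred_eq]
    have h1 := TT_dep L a n hL x y (fun i hi => hxy i (by omega))
    constructor
    · rintro ⟨h2, h3⟩
      exact ⟨h1.1 h2, fun i hi => by rw [← hxy (n+i) (by omega)]; exact h3 i hi⟩
    · rintro ⟨h2, h3⟩
      exact ⟨h1.2 h2, fun i hi => by rw [hxy (n+i) (by omega)]; exact h3 i hi⟩
  have hsum2 : (sourceLaw p).real G = ∑ b ∈ Finset.range (L+1),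
      (sourceLaw p).real (G ∩ FF L a (n+b)) := by
    conv_lhs => rw [hdec]
    rw [measureReal_biUnion_finset]
    · intro b hb b' hb' hbb
      rw [Function.onFun, Set.disjoint_left]
      rintro x ⟨_, hx⟩ ⟨_, hx'⟩
      rcases Nat.lt_or_gt_of_ne hbb with h | h
      · exact hx'.2 (n+b) (by omega) hx.1
      · exact hx.2 (n+b') (by omega) hx'.1
    · intro b _
      exact hmG.inter (FF_dep L a (n+b) hL).measurable
  rw [hsum2]
  refine sum_congr rfl (fun b hb => ?_)
  have hbL : b ≤ L := by have := Finset.mem_range.1 hb; omega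
  split_ifs with hbord
  · -- border
    have hset : G ∩ FF L a (n+b) = FF L a (n+b) ∩ {x | ∀ i, i < L - b → x (n+b+i) = a (b+i)} := by
      ext x
      simp only [hG, Set.mem_inter_iff, Set.mem_ofPred_eq]
      constructor
      · rintro ⟨⟨_, h2⟩, h3⟩
        refine ⟨h3, fun i hi => ?_⟩
        rw [show n + b + i = n + (b + i) by ring]
        exact h2 (b+i) (by omega)
      · rintro ⟨h3, h4⟩
        refine ⟨⟨?_, ?_⟩, h3⟩
        · intro m hm
          exact h3.2 m (by have := hbord.1; omega)
        · intro i hi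
          by_cases hib : i < b
          · have h5 := h3.1.2 (L - b + i) (by omega)
            have h6 := h3.1.1
            rw [show n + b - L + (L - b + i) = n + i by omega] at h5
            rw [h5]
            exact hbord.2.2 i hib
          · have h5 := h4 (i - b) (by omega)
            rw [show n + b + (i - b) = n + i by omega, show b + (i - b) = i by omega] at h5
            exact h5
    rw [hset]
    exact indep_word hp hsum (FF_dep L a (n+b) hL) (fun i => a (b+i)) (L-b)
  · -- not a border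
    have hset : G ∩ FF L a (n+b) = ∅ := by
      ext x
      simp only [Set.mem_empty_iff_false, iff_false]
      rintro ⟨⟨h1, h2⟩, h3⟩
      apply hbord
      refine ⟨?_, hbL, ?_⟩
      · by_contra h
        have : b = 0 := by omega
        rw [this] at h3
        exact h1 (n+0) (by omega) h3.1
      · intro j hj
        have h5 := h3.1.2 (L - b + j) (by omega)
        have h6 := h3.1.1
        rw [show n + b - L + (L - b + j) = n + j by omega] at h5
        rw [← h5]
        exact h2 j (by omega)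
    rw [hset]; simp

theorem ident1 {L : ℕ} (hL : 1 ≤ L) (a : ℕ → Fin s) (n : ℕ) :
    SS p L a n = ∑ b ∈ range (L+1), rw' p L a b * ff p L a (n+b) := by
  classical
  have h0 := ident0 hp hsum hL a n
  have hpos : ∀ k, 0 < ∏ i ∈ range k, p (a i) := fun k => prod_pos (fun i _ => hp _)
  have h1 : SS p L a n = (∑ b ∈ range (L+1), (if Bord L a b then
          ff p L a (n+b) * ∏ i ∈ range (L-b), p (a (b+i)) else 0)) / ∏ i ∈ range L, p (a i) := by
    rw [← h0, mul_div_cancel_right₀ _ (hpos L).ne']
  rw [h1, sum_div]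
  refine sum_congr rfl (fun b hb => ?_)
  have hbL : b ≤ L := by have := Finset.mem_range.1 hb; omega
  unfold rw'
  split_ifs with h
  · have e : ∏ i ∈ range L, p (a i) = (∏ i ∈ range b, p (a i)) *
        ∏ i ∈ range (L-b), p (a (b+i)) := by
      rw [← prod_range_add]
      rw [show b + (L - b) = L by omega]
    rw [e]
    have h2 := hpos b
    have h3 : 0 < ∏ i ∈ range (L-b), p (a (b+i)) := prod_pos (fun i _ => hp _)
    field_simp
  · simp

end prob2

end Pool.Agent.Work.MPa69bcc
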