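import Pool.Agent.Work.MP_a69bcc_pr.Prob
import Pool.Agent.Work.MP_a69bcc_pr.Pair

set_option autoImplicit false

namespace Pool.Agent.Work.MPa69bcc

open Finset MeasureTheory ProbabilityTheory

variable {s : ℕ}

/-- probability of the word -/
noncomputable def pw (p : Fin s → ℝ) (a : ℕ → Fin s) (k : ℕ) : ℝ := ∏ i ∈ range k, p (a i)

theorem wt_of {p : Fin s → ℝ} (hp : ∀ i, 0 < p i) (hsum : ∑ i, p i = 1) {L : ℕ} (hL : 1 ≤ L)
    (a : ℕ → Fin s) (hsmall : pw p a L * ∑ b ∈ range L, rw' p L a b ≤ 1/5) :
    WT L (pw p a L) (rw' p L a) (ff p L a) (SS p L a) where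
  Lpos := hL
  Ppos := prod_pos (fun i _ => hp _)
  r_nonneg := by
    intro b
    unfold rw'
    split_ifs
    · exact (one_div_pos.2 (prod_pos (fun i _ => hp _))).le
    · exact le_rfl
  r_zero := by
    intro b hb
    unfold rw'
    rw [if_neg]
    intro h
    have := h.2.1
    omega
  r_L := by
    unfold rw' pw
    rw [if_pos]
    refine ⟨hL, le_rfl, fun j _ => ?_⟩
    simp
  f_nonneg := fun n => measureReal_nonneg
  f_zero := by
    intro n hn
    unfold ff
    rw [FF_empty hn]; simp
  S_eq := SS_eq hp hsum hL a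
  S_nonneg := fun n => measureReal_nonneg
  ident := ident1 hp hsum hL a
  small := hsmall

/-- letters of a word, extended by a default -/
def lt (d : Fin s) (A : List (Fin s)) (i : ℕ) : Fin s := A.getD i d

theorem completedAt_iff (d : Fin s) (A : List (Fin s)) (x : ℕ → Fin s) (n : ℕ) :
    CompletedAt A x n ↔ Occ A.length (lt d A) x n := by
  unfold CompletedAt Occ lt
  refine and_congr_right (fun _ => ?_)
  constructor
  · intro h i hi
    rw [List.getD_eq_getElem _ _ hi]
    exact h ⟨i, hi⟩
  · intro h i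
    rw [h i i.isLt, List.getD_eq_getElem _ _ i.isLt]
    rfl

theorem tau_le_iff (d : Fin s) (A : List (Fin s)) (x : ℕ → Fin s) (n : ℕ) :
    (n : ℕ∞) < tau A x ↔ x ∈ TT A.length (lt d A) n := by
  unfold tau TT
  simp only [Set.mem_ofPred_eq]
  constructor
  · intro h m hm hc
    have h1 : (⨅ (n : ℕ) (_ : CompletedAt A x n), (n : ℕ∞)) ≤ (m : ℕ∞) :=
      iInf₂_le m ((completedAt_iff d A x m).2 hc)
    have h2 := h.trans_le h1
    have h3 : n < m := by exact_mod_cast h2
    omega
  · intro h
    have h1 : ((n + 1 : ℕ) : ℕ∞) ≤ ⨅ (n : ℕ) (_ : CompletedAt A x n), (n : ℕ∞) := by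
      refine le_iInf₂ (fun m hm => ?_)
      have h2 := (completedAt_iff d A x m).1 hm
      by_contra hc
      push Not at hc
      have h3 : m < n + 1 := by exact_mod_cast hc
      exact h m (by omega) h2
    refine lt_of_lt_of_le ?_ h1
    exact_mod_cast Nat.lt_succ_self n

theorem tau_eq_iff (d : Fin s) (A : List (Fin s)) (x : ℕ → Fin s) (n : ℕ) :
    tau A x = (n : ℕ∞) ↔ x ∈ FF A.length (lt d A) n := by
  constructor
  · intro h
    have h1 : ¬ ((n : ℕ∞) < tau A x) := by rw [h]; exact lt_irrefl _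
    rw [tau_le_iff d] at h1
    unfold TT at h1
    simp only [Set.mem_ofPred_eq] at h1
    push Not at h1
    obtain ⟨m, hm, hc⟩ := h1
    have h2 : ∀ k, k < n → ¬ Occ A.length (lt d A) x k := by
      intro k hk hc'
      have h3 : tau A x ≤ (k : ℕ∞) := by
        unfold tau
        exact iInf₂_le k ((completedAt_iff d A x k).2 hc')
      rw [h] at h3
      have : n ≤ k := by exact_mod_cast h3
      omega
    have h4 : m = n := by
      by_contra hne
      exact h2 m (by omega) hc
    rw [h4] at hc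
    exact ⟨hc, h2⟩
  · rintro ⟨h1, h2⟩
    apply le_antisymm
    · unfold tau
      exact iInf₂_le n ((completedAt_iff d A x n).2 h1)
    · unfold tau
      refine le_iInf₂ (fun m hm => ?_)
      have h3 := (completedAt_iff d A x m).1 hm
      by_contra hc
      push Not at hc
      exact h2 m (by exact_mod_cast hc) h3

/-- the race probability in terms of the sequences -/
theorem race_eq {p : Fin s → ℝ} (hp : ∀ i, 0 < p i) (hsum : ∑ i, p i = 1) (d : Fin s)
    {A B : List (Fin s)} {P P' : ℝ} {r r' : ℕ → ℝ}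
    (hX : WT A.length P r (ff p A.length (lt d A)) (SS p A.length (lt d A)))
    (hY : WT B.length P' r' (ff p B.length (lt d B)) (SS p B.length (lt d B))) :
    race p A B = 1/2 * R2 (ff p A.length (lt d A)) (SS p B.length (lt d B)) := by
  have hprob := sourceLaw_prob hp hsum
  set a := ff p A.length (lt d A) with ha
  set c := ff p B.length (lt d B) with hc
  set Sc := SS p B.length (lt d B) with hSc
  have hLA := hX.Lpos
  have hLB := hY.Lpos
  -- measurability
  have mFA : ∀ n, MeasurableSet (FF A.length (lt d A) n) := fun n => (FF_dep _ _ n hLA).measurable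
  have mFB : ∀ n, MeasurableSet (FF B.length (lt d B) n) := fun n => (FF_dep _ _ n hLB).measurable
  have mTB : ∀ n, MeasurableSet (TT B.length (lt d B) n) := fun n => (TT_dep _ _ n hLB).measurable
  have djA : ∀ m n, m ≠ n → Disjoint (FF A.length (lt d A) m) (FF A.length (lt d A) n) := by
    intro m n hmn
    rw [Set.disjoint_left]
    intro x hx hx'
    rw [← tau_eq_iff] at hx hx'
    rw [hx] at hx'
    exact hmn (by exact_mod_cast hx')
  -- the event of a win
  have e1 : {z : (ℕ → Fin s) × (ℕ → Fin s) | tau A z.1 < tau B z.2}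
      = ⋃ n : ℕ, (FF A.length (lt d A) n) ×ˢ (TT B.length (lt d B) n) := by
    ext z
    simp only [Set.mem_ofPred_eq, Set.mem_iUnion, Set.mem_prod]
    constructor
    · intro h
      obtain ⟨n, hn⟩ : ∃ n : ℕ, tau A z.1 = n := by
        have : tau A z.1 ≠ ⊤ := ne_top_of_lt h
        exact ⟨(tau A z.1).toNat, (ENat.natCast_toNat this).symm⟩
      refine ⟨n, (tau_eq_iff d A z.1 n).1 hn, ?_⟩
      rw [← tau_le_iff, ← hn]; exact h
    · rintro ⟨n, h1, h2⟩
      rw [← tau_eq_iff] at h1
      rw [← tau_le_iff] at h2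
      rw [h1]; exact h2
  have e2 : {z : (ℕ → Fin s) × (ℕ → Fin s) | tau A z.1 = tau B z.2}
      = (⋃ n : ℕ, (FF A.length (lt d A) n) ×ˢ (FF B.length (lt d B) n)) ∪
        ({z : (ℕ → Fin s) × (ℕ → Fin s) | tau A z.1 = ⊤ ∧ tau B z.2 = ⊤}) := by
    ext z
    simp only [Set.mem_ofPred_eq, Set.mem_iUnion, Set.mem_prod, Set.mem_union]
    constructor
    · intro h
      by_cases ht : tau A z.1 = ⊤
      · right; exact ⟨ht, by rw [← h]; exact ht⟩
      · left
        refine ⟨(tau A z.1).toNat, ?_, ?_⟩
        · rw [← tau_eq_iff]; exact (ENat.natCast_toNat ht).symm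
        · rw [← tau_eq_iff, ← h]; exact (ENat.natCast_toNat ht).symm
    · rintro (⟨n, h1, h2⟩ | ⟨h1, h2⟩)
      · rw [← tau_eq_iff] at h1 h2
        rw [h1, h2]
      · rw [h1, h2]
  -- probabilities
  have p1 : ((sourceLaw p).prod (sourceLaw p)).real {z | tau A z.1 < tau B z.2}
      = ∑' n, a n * Sc n := by
    rw [e1]
    have hU := measure_iUnion (μ := (sourceLaw p).prod (sourceLaw p))
      (f := fun n : ℕ => (FF A.length (lt d A) n) ×ˢ (TT B.length (lt d B) n))
      (by
        intro m n hmn
        rw [Function.onFun, Set.disjoint_prod]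
        left; exact djA m n hmn)
      (fun n => (mFA n).prod (mTB n))
    unfold Measure.real
    rw [hU, ENNReal.tsum_toReal_eq (fun n => measure_ne_top _ _)]
    refine tsum_congr (fun n => ?_)
    rw [Measure.prod_prod, ENNReal.toReal_mul]
    rfl
  have hnull : ((sourceLaw p).prod (sourceLaw p))
      {z : (ℕ → Fin s) × (ℕ → Fin s) | tau A z.1 = ⊤ ∧ tau B z.2 = ⊤} = 0 := by
    have hsub : {z : (ℕ → Fin s) × (ℕ → Fin s) | tau A z.1 = ⊤ ∧ tau B z.2 = ⊤} ⊆
        Set.univ ×ˢ {y : ℕ → Fin s | tau B y = ⊤} := by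
      rintro z ⟨_, h⟩
      exact ⟨Set.mem_univ _, h⟩
    refine measure_mono_null hsub ?_
    rw [Measure.prod_prod]
    have hz : (sourceLaw p) {y : ℕ → Fin s | tau B y = ⊤} = 0 := by
      have hle : ∀ n, (sourceLaw p).real {y : ℕ → Fin s | tau B y = ⊤} ≤ Sc n := by
        intro n
        refine measureReal_mono ?_ (measure_ne_top _ _)
        intro y hy
        rw [← tau_le_iff]
        simp only [Set.mem_ofPred_eq] at hy
        rw [hy]
        exact ENat.natCast_lt_top n
      have h0 : (sourceLaw p).real {y : ℕ → Fin s | tau B y = ⊤} ≤ 0 :=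
        ge_of_tendsto' hY.S_tendsto hle
      have h1 : (sourceLaw p).real {y : ℕ → Fin s | tau B y = ⊤} = 0 :=
        le_antisymm h0 measureReal_nonneg
      rw [measureReal_eq_zero_iff] at h1
      exact h1
    rw [hz, mul_zero]
  have p2 : ((sourceLaw p).prod (sourceLaw p)).real {z | tau A z.1 = tau B z.2}
      = ∑' n, a n * c n := by
    rw [e2]
    have hU := measure_iUnion (μ := (sourceLaw p).prod (sourceLaw p))
      (f := fun n : ℕ => (FF A.length (lt d A) n) ×ˢ (FF B.length (lt d B) n))
      (by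
        intro m n hmn
        rw [Function.onFun, Set.disjoint_prod]
        left; exact djA m n hmn)
      (fun n => (mFA n).prod (mFB n))
    unfold Measure.real
    have hun : ((sourceLaw p).prod (sourceLaw p))
        ((⋃ n : ℕ, (FF A.length (lt d A) n) ×ˢ (FF B.length (lt d B) n)) ∪
        ({z : (ℕ → Fin s) × (ℕ → Fin s) | tau A z.1 = ⊤ ∧ tau B z.2 = ⊤}))
        = ((sourceLaw p).prod (sourceLaw p))
        (⋃ n : ℕ, (FF A.length (lt d A) n) ×ˢ (FF B.length (lt d B) n)) := by
      refine le_antisymm ?_ (measure_mono Set.subset_union_left)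
      refine (measure_union_le _ _).trans ?_
      rw [hnull, add_zero]
    rw [hun, hU, ENNReal.tsum_toReal_eq (fun n => measure_ne_top _ _)]
    refine tsum_congr (fun n => ?_)
    rw [Measure.prod_prod, ENNReal.toReal_mul]
    rfl
  -- algebra
  have s1 : Summable (fun n => a n * Sc n) := by
    refine Summable.of_nonneg_of_le (fun n => mul_nonneg (hX.f_nonneg n) (hY.S_nonneg n))
      (fun n => ?_) hX.summable_f
    exact mul_le_of_le_one_right (hX.f_nonneg n) (hY.S_le_one n)
  have s2 : Summable (fun n => a n * c n) := by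
    refine Summable.of_nonneg_of_le (fun n => mul_nonneg (hX.f_nonneg n) (hY.f_nonneg n))
      (fun n => ?_) hX.summable_f
    refine mul_le_of_le_one_right (hX.f_nonneg n) ?_
    have h1 := hY.sum_le_one (n+1)
    rw [sum_range_succ] at h1
    have : 0 ≤ ∑ i ∈ range n, c i := sum_nonneg (fun i _ => hY.f_nonneg i)
    linarith
  have s3 : Summable (fun n => a (n+1) * Sc n) := by
    refine Summable.of_nonneg_of_le (fun n => mul_nonneg (hX.f_nonneg _) (hY.S_nonneg n))
      (fun n => ?_) (hX.summable_shift 1)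
    exact mul_le_of_le_one_right (hX.f_nonneg _) (hY.S_le_one n)
  have e3 : R2 a Sc = ∑' n, a n * Sc n + ∑' n, a (n+1) * Sc n := by
    unfold R2 wt
    rw [← s1.tsum_add s3]
    refine tsum_congr (fun n => ?_)
    ring
  have e4 : ∑' n, a (n+1) * Sc n = ∑' n, a n * Sc n + ∑' n, a n * c n := by
    have h1 : ∀ n, a (n+1) * Sc n = a (n+1) * Sc (n+1) + a (n+1) * c (n+1) := by
      intro n
      rw [hY.S_succ n]; ring
    have h2 := s1.sum_add_tsum_nat_add 1
    have h3 := s2.sum_add_tsum_nat_add 1
    simp only [range_one, sum_singleton, hX.f_zero0, zero_mul, zero_add] at h2 h3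
    rw [tsum_congr h1, ((summable_nat_add_iff 1).2 s1).tsum_add ((summable_nat_add_iff 1).2 s2),
      h2, h3]
  unfold race
  rw [p1, p2, e3, e4]
  ring

end Pool.Agent.Work.MPa69bcc
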