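import Mathlib

set_option autoImplicit false

namespace Pool.Agent.Work.MPa69bcc

open Finset

/-- Sequence-level data of a waiting time: `f` is the law, `S` the survival function, `r` the
weights of the borders, `L` the length and `P` the probability of the word. -/
structure WT (L : ℕ) (P : ℝ) (r f S : ℕ → ℝ) : Prop where
  Lpos : 1 ≤ L
  Ppos : 0 < P
  r_nonneg : ∀ b, 0 ≤ r b
  r_zero : ∀ b, L < b → r b = 0
  r_L : r L = 1 / P
  f_nonneg : ∀ n, 0 ≤ f n
  f_zero : ∀ n, n < L → f n = 0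
  S_eq : ∀ n, S n = 1 - ∑ m ∈ range (n+1), f m
  S_nonneg : ∀ n, 0 ≤ S n
  ident : ∀ n, S n = ∑ b ∈ range (L+1), r b * f (n+b)
  small : P * ∑ b ∈ range L, r b ≤ 1/5

namespace WT

variable {L : ℕ} {P : ℝ} {r f S : ℕ → ℝ}

theorem S_succ (h : WT L P r f S) (n : ℕ) : S (n+1) = S n - f (n+1) := by
  rw [h.S_eq, h.S_eq n, sum_range_succ]; ring

theorem f_zero0 (h : WT L P r f S) : f 0 = 0 := h.f_zero 0 h.Lpos

theorem S_zero (h : WT L P r f S) : S 0 = 1 := by
  rw [h.S_eq]; simp [h.f_zero0]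

theorem S_le_one (h : WT L P r f S) (n : ℕ) : S n ≤ 1 := by
  rw [h.S_eq]
  have : 0 ≤ ∑ m ∈ range (n+1), f m := sum_nonneg (fun m _ => h.f_nonneg m)
  linarith

theorem ident' (h : WT L P r f S) (n : ℕ) :
    f (n+L) = P * (S n - ∑ b ∈ range L, r b * f (n+b)) := by
  have h1 := h.ident n
  rw [sum_range_succ, h.r_L] at h1
  rw [h1]
  have := h.Ppos.ne'
  field_simp
  ring

theorem f_le (h : WT L P r f S) (n : ℕ) : f n ≤ P := by
  by_cases hn : n < L
  · rw [h.f_zero n hn]; exact h.Ppos.le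
  · obtain ⟨k, rfl⟩ : ∃ k, n = k + L := ⟨n - L, by omega⟩
    rw [h.ident']
    have h1 : 0 ≤ ∑ b ∈ range L, r b * f (k+b) :=
      sum_nonneg (fun b _ => mul_nonneg (h.r_nonneg b) (h.f_nonneg _))
    have h2 := h.S_le_one k
    have h3 := h.Ppos
    nlinarith

theorem sum_le_one (h : WT L P r f S) (n : ℕ) : ∑ m ∈ range n, f m ≤ 1 := by
  rcases n with _ | n
  · simp
  · have := h.S_nonneg n
    rw [h.S_eq] at this
    linarith

theorem summable_f (h : WT L P r f S) : Summable f :=
  summable_of_sum_range_le h.f_nonneg h.sum_le_one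

theorem f_tendsto (h : WT L P r f S) : Filter.Tendsto f Filter.atTop (nhds 0) :=
  h.summable_f.tendsto_atTop_zero

theorem S_tendsto (h : WT L P r f S) : Filter.Tendsto S Filter.atTop (nhds 0) := by
  have h1 : S = fun n => ∑ b ∈ range (L+1), r b * f (n+b) := funext h.ident
  rw [h1]
  have h2 : Filter.Tendsto (fun n => ∑ b ∈ range (L+1), r b * f (n+b)) Filter.atTop
      (nhds (∑ b ∈ range (L+1), r b * 0)) := by
    refine tendsto_finsetSum _ (fun b _ => ?_)
    refine Filter.Tendsto.const_mul _ ?_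
    exact h.f_tendsto.comp (Filter.tendsto_add_atTop_nat b)
  simpa using h2

theorem hasSum_f (h : WT L P r f S) : HasSum f 1 := by
  rw [h.summable_f.hasSum_iff_tendsto_nat]
  have h1 : Filter.Tendsto (fun n => 1 - S n) Filter.atTop (nhds (1 - 0)) :=
    h.S_tendsto.const_sub 1
  rw [sub_zero] at h1
  have h2 : (fun n => 1 - S n) = fun n => ∑ m ∈ range (n+1), f m := by
    funext n; rw [h.S_eq]; ring
  rw [h2] at h1
  exact (Filter.tendsto_add_atTop_iff_nat 1).1 h1

theorem tsum_f (h : WT L P r f S) : ∑' n, f n = 1 := h.hasSum_f.tsum_eq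

theorem tsum_shift (h : WT L P r f S) (b : ℕ) (hb : b ≤ L) : ∑' n, f (n+b) = 1 := by
  have h1 := h.summable_f.sum_add_tsum_nat_add b
  rw [h.tsum_f] at h1
  have h2 : ∑ i ∈ range b, f i = 0 := by
    refine sum_eq_zero (fun i hi => h.f_zero i ?_)
    have := mem_range.1 hi
    omega
  rw [h2, zero_add] at h1
  exact h1

theorem summable_shift (h : WT L P r f S) (b : ℕ) : Summable (fun n => f (n+b)) :=
  (summable_nat_add_iff b).2 h.summable_f

/-- mean -/
noncomputable def mu (L : ℕ) (r : ℕ → ℝ) : ℝ := ∑ b ∈ range (L+1), r b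

theorem hasSum_S (h : WT L P r f S) : HasSum S (mu L r) := by
  have h1 : S = fun n => ∑ b ∈ range (L+1), r b * f (n+b) := funext h.ident
  rw [h1]
  unfold mu
  refine hasSum_sum (fun b hb => ?_)
  have hb' : b ≤ L := by have := mem_range.1 hb; omega
  have := ((h.summable_shift b).hasSum).mul_left (r b)
  rw [h.tsum_shift b hb', mul_one] at this
  exact this

theorem summable_S (h : WT L P r f S) : Summable S := h.hasSum_S.summable

theorem mu_le (h : WT L P r f S) : P * mu L r ≤ 6/5 := by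
  unfold mu
  rw [sum_range_succ, h.r_L, mul_add]
  have := h.small
  have h2 : P * (1/P) = 1 := by have := h.Ppos.ne'; field_simp
  linarith

theorem mu_ge (h : WT L P r f S) : 1 / P ≤ mu L r := by
  unfold mu
  rw [sum_range_succ, h.r_L]
  have : 0 ≤ ∑ b ∈ range L, r b := sum_nonneg (fun b _ => h.r_nonneg b)
  linarith

theorem mu_pos (h : WT L P r f S) : 0 < mu L r :=
  lt_of_lt_of_le (by have := h.Ppos; positivity) h.mu_ge

theorem S_ge (h : WT L P r f S) (n : ℕ) : 1 - n * P ≤ S n := by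
  rw [h.S_eq, sum_range_succ']
  rw [h.f_zero0]
  have : ∑ m ∈ range n, f (m+1) ≤ ∑ _m ∈ range n, P := sum_le_sum (fun m _ => h.f_le _)
  rw [sum_const, card_range, nsmul_eq_mul] at this
  linarith

theorem f_ge (h : WT L P r f S) (n : ℕ) (hn : L ≤ n) (hP : n * P ≤ 1/4) : P / 2 ≤ f n := by
  obtain ⟨k, rfl⟩ : ∃ k, n = k + L := ⟨n - L, by omega⟩
  rw [h.ident']
  have h1 : ∑ b ∈ range L, r b * f (k+b) ≤ (∑ b ∈ range L, r b) * P := by
    rw [sum_mul]
    refine sum_le_sum (fun b _ => ?_)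
    exact mul_le_mul_of_nonneg_left (h.f_le _) (h.r_nonneg b)
  have h2 := h.S_ge k
  have h3 : (k : ℝ) * P ≤ ((k + L : ℕ) : ℝ) * P := by
    have : (k : ℝ) ≤ ((k + L : ℕ) : ℝ) := by push_cast; linarith [Nat.cast_nonneg (α := ℝ) L]
    exact mul_le_mul_of_nonneg_right this h.Ppos.le
  have h4 := h.small
  have h5 := h.Ppos
  have h6 : 1/2 ≤ S k - ∑ b ∈ range L, r b * f (k+b) := by linarith
  nlinarith

/-- total variation -/
theorem summable_tv (h : WT L P r f S) : Summable (fun n => |f (n+1) - f n|) := by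
  have h1 : Summable (fun n => f (n+1) + f n) := (h.summable_shift 1).add h.summable_f
  refine Summable.of_nonneg_of_le (fun n => abs_nonneg _) (fun n => ?_) h1
  rw [abs_le]
  constructor <;> linarith [h.f_nonneg n, h.f_nonneg (n+1)]

theorem tv_le (h : WT L P r f S) : ∑' n, |f (n+1) - f n| ≤ (5/2) * P := by
  set T := ∑' n, |f (n+1) - f n| with hT
  have hTn : 0 ≤ T := tsum_nonneg (fun n => abs_nonneg _)
  have h1 := h.summable_tv.sum_add_tsum_nat_add L
  rw [← hT] at h1
  -- initial part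
  have h2 : ∑ i ∈ range L, |f (i+1) - f i| ≤ P := by
    obtain ⟨M, hM⟩ : ∃ M, L = M + 1 := ⟨L - 1, by have := h.Lpos; omega⟩
    rw [hM, sum_range_succ]
    have : ∑ i ∈ range M, |f (i+1) - f i| = 0 := by
      refine sum_eq_zero (fun i hi => ?_)
      have := mem_range.1 hi
      rw [h.f_zero i (by omega), h.f_zero (i+1) (by omega)]; simp
    rw [this, h.f_zero M (by omega), zero_add, sub_zero, abs_of_nonneg (h.f_nonneg _)]
    exact h.f_le _
  -- tail
  have h3 : ∀ n, |f (n+L+1) - f (n+L)| ≤ P * (f (n+1) + ∑ b ∈ range L, r b *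
      |f (n+b+1) - f (n+b)|) := by
    intro n
    have e1 := h.ident' n
    have e2 := h.ident' (n+1)
    have e3 : n + 1 + L = n + L + 1 := by ring
    rw [e3] at e2
    rw [e1, e2, h.S_succ]
    have e4 : P * (S n - f (n+1) - ∑ b ∈ range L, r b * f (n+1+b)) -
        P * (S n - ∑ b ∈ range L, r b * f (n+b))
        = -(P * (f (n+1) + ∑ b ∈ range L, r b * (f (n+b+1) - f (n+b)))) := by
      have : ∑ b ∈ range L, r b * (f (n+b+1) - f (n+b)) =
          ∑ b ∈ range L, r b * f (n+1+b) - ∑ b ∈ range L, r b * f (n+b) := by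
        rw [← sum_sub_distrib]
        refine sum_congr rfl (fun b _ => ?_)
        rw [show n + b + 1 = n + 1 + b by ring]; ring
      rw [this]; ring
    rw [e4, abs_neg, abs_mul, abs_of_pos h.Ppos]
    refine mul_le_mul_of_nonneg_left ?_ h.Ppos.le
    refine (abs_add_le _ _).trans ?_
    rw [abs_of_nonneg (h.f_nonneg _)]
    gcongr
    refine (abs_sum_le_sum_abs _ _).trans ?_
    refine sum_le_sum (fun b _ => ?_)
    rw [abs_mul, abs_of_nonneg (h.r_nonneg b)]
  have hs : ∀ b, Summable (fun n => |f (n+b+1) - f (n+b)|) := by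
    intro b
    exact (summable_nat_add_iff (f := fun n => |f (n+1) - f n|) b).2 h.summable_tv
  have htb : ∀ b, ∑' n, |f (n+b+1) - f (n+b)| ≤ T := by
    intro b
    have := h.summable_tv.sum_add_tsum_nat_add b
    have hn : 0 ≤ ∑ i ∈ range b, |f (i+1) - f i| := sum_nonneg (fun _ _ => abs_nonneg _)
    rw [hT]; linarith
  have hs2 : Summable (fun n => P * (f (n+1) + ∑ b ∈ range L, r b *
      |f (n+b+1) - f (n+b)|)) := by
    refine Summable.mul_left _ ((h.summable_shift 1).add ?_)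
    exact summable_sum (fun b _ => (hs b).mul_left _)
  have h4 : ∑' n, |f (n+L+1) - f (n+L)| ≤ P * (1 + (∑ b ∈ range L, r b) * T) := by
    refine ((hs L).tsum_le_tsum h3 hs2).trans ?_
    rw [tsum_mul_left, ((h.summable_shift 1)).tsum_add (summable_sum (fun b _ => (hs b).mul_left _)),
      h.tsum_shift 1 h.Lpos, Summable.tsum_finsetSum (fun b _ => (hs b).mul_left _)]
    refine mul_le_mul_of_nonneg_left ?_ h.Ppos.le
    gcongr
    rw [sum_mul]
    refine sum_le_sum (fun b _ => ?_)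
    rw [tsum_mul_left]
    exact mul_le_mul_of_nonneg_left (htb b) (h.r_nonneg b)
  have h5 := h.small
  have h6 : T ≤ P + P * (1 + (∑ b ∈ range L, r b) * T) := by linarith
  have h7 : P * ((∑ b ∈ range L, r b) * T) ≤ (1/5) * T := by
    rw [← mul_assoc]
    exact mul_le_mul_of_nonneg_right h5 hTn
  nlinarith

end WT

end Pool.Agent.Work.MPa69bcc
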